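import Pool.Agent.H739Z.Rw.Defs

set_option autoImplicit false

namespace Pool.Agent.H739Z.Rw

open Relation

section pw
variable {A : Type}

@[simp] lemma pw_zero (x : List A) : pw x 0 = [] := rfl
lemma pw_succ (x : List A) (k : ℕ) : pw x (k + 1) = x ++ pw x k := by
  simp [pw, List.replicate_succ]
@[simp] lemma pw_one (x : List A) : pw x 1 = x := by simp [pw_succ]
lemma pw_add (x : List A) (j k : ℕ) : pw x (j + k) = pw x j ++ pw x k := by
  unfold pw; rw [List.replicate_add, List.flatten_append]
lemma pw_succ' (x : List A) (k : ℕ) : pw x (k + 1) = pw x k ++ x := by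
  rw [pw_add, pw_one]
@[simp] lemma pw_nil (k : ℕ) : pw ([] : List A) k = [] := by simp [pw]
@[simp] lemma length_pw (x : List A) (k : ℕ) : (pw x k).length = k * x.length := by
  induction k with
  | zero => simp
  | succ k ih => rw [pw_succ, List.length_append, ih]; ring
lemma mem_pw {x : List A} {k : ℕ} {c : A} (h : c ∈ pw x k) : c ∈ x := by
  induction k with
  | zero => simp at h
  | succ k ih => rw [pw_succ, List.mem_append] at h; exact h.elim id ih
lemma mem_pw_of {x : List A} {k : ℕ} {c : A} (hk : 1 ≤ k) (h : c ∈ x) : c ∈ pw x k := by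
  obtain ⟨k, rfl⟩ : ∃ j, k = j + 1 := ⟨k - 1, by omega⟩
  rw [pw_succ]; exact List.mem_append_left _ h
lemma pw_single (c : A) (k : ℕ) : pw [c] k = List.replicate k c := by
  induction k with
  | zero => rfl
  | succ k ih => rw [pw_succ, ih]; rfl
lemma pw_replicate (c : A) (j k : ℕ) : pw (List.replicate j c) k = List.replicate (k * j) c := by
  induction k with
  | zero => simp
  | succ k ih => rw [pw_succ, ih, ← List.replicate_add]; congr 1; ring
lemma map_pw {B : Type} (f : A → B) (x : List A) (k : ℕ) : (pw x k).map f = pw (x.map f) k := by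
  induction k with
  | zero => simp
  | succ k ih => rw [pw_succ, pw_succ, List.map_append, ih]
lemma pw_conj (p q : List A) (k : ℕ) : pw (p ++ q) k ++ p = p ++ pw (q ++ p) k := by
  induction k with
  | zero => simp
  | succ k ih => rw [pw_succ, pw_succ, List.append_assoc, ih]; simp
lemma pw_pw (x : List A) (j k : ℕ) : pw (pw x j) k = pw x (k * j) := by
  induction k with
  | zero => simp
  | succ k ih => rw [pw_succ, ih, ← pw_add]; congr 1; ring
end pw

section step
variable {A : Type} {n m : ℕ}

abbrev Der (n m : ℕ) (y z : List A) : Prop := ReflTransGen (Step n m) y z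

lemma Step.ctx {y z : List A} (h : Step n m y z) (s t : List A) :
    Step n m (s ++ y ++ t) (s ++ z ++ t) := by
  obtain ⟨u, v, x, rfl, rfl⟩ := h
  exact ⟨s ++ u, v ++ t, x, by simp, by simp⟩

lemma Der.ctx {y z : List A} (h : Der n m y z) (s t : List A) :
    Der n m (s ++ y ++ t) (s ++ z ++ t) := by
  induction h with
  | refl => exact ReflTransGen.refl
  | tail _ h2 ih => exact ih.tail (h2.ctx s t)

lemma Der.app {y z y' z' : List A} (h : Der n m y z) (h' : Der n m y' z') :
    Der n m (y ++ y') (z ++ z') := by
  have h1 := h.ctx [] y'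
  have h2 := h'.ctx z []
  simp only [List.nil_append, List.append_nil] at h1 h2
  exact h1.trans h2

lemma Der.rfl' (y : List A) : Der n m y y := ReflTransGen.refl

lemma der_pw (x : List A) (j r : ℕ) (hj : n ≤ j) : Der n m (pw x j) (pw x (j + m * r)) := by
  induction r with
  | zero => exact ReflTransGen.refl
  | succ r ih =>
    refine ih.tail ⟨[], pw x (j + m * r - n), x, ?_, ?_⟩
    · rw [List.nil_append, ← pw_add]; congr 1; omega
    · rw [List.nil_append, ← pw_add]; congr 1; rw [Nat.mul_succ]; omega

lemma Der.pw {y z : List A} (h : Der n m y z) (k : ℕ) : Der n m (pw y k) (pw z k) := by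
  induction k with
  | zero => exact ReflTransGen.refl
  | succ k ih => rw [pw_succ, pw_succ]; exact h.app ih

lemma Der.map {B : Type} (f : A → B) {y z : List A} (h : Der n m y z) :
    Der n m (y.map f) (z.map f) := by
  induction h with
  | refl => exact ReflTransGen.refl
  | tail _ h2 ih =>
    obtain ⟨u, v, x, rfl, rfl⟩ := h2
    refine ih.tail ⟨u.map f, v.map f, x.map f, ?_, ?_⟩ <;> simp [map_pw]

end step

/-- Myhill-Nerode criterion. -/
lemma not_regular_of {A : Type} (L : Language A) (u : ℕ → List A)
    (h1 : ∀ k, ∃ v, u k ++ v ∈ L) (h2 : ∀ v, ∃ N, ∀ k, N ≤ k → u k ++ v ∉ L) : ¬ L.IsRegular := by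
  intro h
  have hf := h.finite_range_leftQuotient
  have : Finite (Set.range L.leftQuotient) := hf
  obtain ⟨Q, hQ⟩ := Finite.exists_infinite_fiber
    (fun k : ℕ => (⟨L.leftQuotient (u k), ⟨u k, rfl⟩⟩ : Set.range L.leftQuotient))
  have hinf : ((fun k : ℕ => (⟨L.leftQuotient (u k), ⟨u k, rfl⟩⟩ : Set.range L.leftQuotient)) ⁻¹' {Q}).Infinite :=
    Set.infinite_coe_iff.1 hQ
  obtain ⟨k0, hk0⟩ := hinf.nonempty
  obtain ⟨v, hv⟩ := h1 k0
  obtain ⟨N, hN⟩ := h2 v
  obtain ⟨k, hk, hNk⟩ := hinf.exists_gt N
  apply hN k hNk.le
  have e : L.leftQuotient (u k) = L.leftQuotient (u k0) := by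
    have a := congrArg Subtype.val (Set.mem_singleton_iff.1 hk)
    have b := congrArg Subtype.val (Set.mem_singleton_iff.1 hk0)
    exact a.trans b.symm
  have : v ∈ L.leftQuotient (u k0) := hv
  rw [← e] at this
  exact this

/-! Thue-Morse sequence -/

def tm (i : ℕ) : Bool := if h : i = 0 then false else xor (tm (i / 2)) (decide (i % 2 = 1))
decreasing_by omega

lemma tm_even (k : ℕ) : tm (2 * k) = tm k := by
  rcases Nat.eq_zero_or_pos k with rfl | hk
  · rfl
  · rw [tm, dif_neg (by omega)]
    have h1 : 2 * k / 2 = k := by omega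
    have h2 : ¬ (2 * k % 2 = 1) := by omega
    simp [h1, h2]

lemma tm_odd (k : ℕ) : tm (2 * k + 1) = !tm k := by
  rw [tm, dif_neg (by omega)]
  have h1 : (2 * k + 1) / 2 = k := by omega
  simp [h1]

lemma tm_ne_even (i : ℕ) (hi : i % 2 = 0) : tm (i + 1) = !tm i := by
  obtain ⟨k, rfl⟩ : ∃ k, i = 2 * k := ⟨i / 2, by omega⟩
  rw [tm_odd, tm_even]

lemma tm_overlap_free (p : ℕ) : 1 ≤ p → ∀ i, ¬ ∀ j ≤ p, tm (i + j + p) = tm (i + j) := by
  induction p using Nat.strong_induction_on with
  | _ p ih =>
    intro hp i h
    rcases Nat.even_or_odd' p with ⟨q, rfl | rfl⟩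
    · rcases Nat.even_or_odd' i with ⟨k, rfl | rfl⟩
      · refine ih q (by omega) (by omega) k fun j hj => ?_
        have := h (2 * j) (by omega)
        rw [show 2 * k + 2 * j + 2 * q = 2 * (k + j + q) by ring,
          show 2 * k + 2 * j = 2 * (k + j) by ring, tm_even, tm_even] at this
        exact this
      · refine ih q (by omega) (by omega) k fun j hj => ?_
        have := h (2 * j) (by omega)
        rw [show 2 * k + 1 + 2 * j + 2 * q = 2 * (k + j + q) + 1 by ring,
          show 2 * k + 1 + 2 * j = 2 * (k + j) + 1 by ring, tm_odd, tm_odd] at this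
        simpa using this
    · have hd : ∀ j < 2 * q + 1, tm (i + j + 1) = !tm (i + j) := by
        intro j hj
        by_cases he : (i + j) % 2 = 0
        · exact tm_ne_even _ he
        · have h1 := h j (by omega)
          have h2 := h (j + 1) (by omega)
          have h3 := tm_ne_even (i + j + (2 * q + 1)) (by omega)
          rw [show i + (j + 1) + (2 * q + 1) = i + j + (2 * q + 1) + 1 by ring, h3, h1] at h2
          rw [show i + j + 1 = i + (j + 1) by ring, ← h2]
      rcases Nat.eq_zero_or_pos q with rfl | hq
      · have h1 := h 0 (by omega)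
        have h2 := hd 0 (by omega)
        simp at h1 h2
        rw [h1] at h2
        simp at h2
      · have hd2 : ∀ j < 2 * (2 * q + 1), tm (i + j + 1) = !tm (i + j) := by
          intro j hj
          by_cases hj' : j < 2 * q + 1
          · exact hd j hj'
          · have h1 := h (j - (2 * q + 1)) (by omega)
            have h2 := h (j - (2 * q + 1) + 1) (by omega)
            have h3 := hd (j - (2 * q + 1)) (by omega)
            rw [show i + (j - (2 * q + 1)) + (2 * q + 1) = i + j by omega] at h1
            rw [show i + (j - (2 * q + 1) + 1) + (2 * q + 1) = i + j + 1 by omega,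
              show i + (j - (2 * q + 1) + 1) = i + (j - (2 * q + 1)) + 1 by omega] at h2
            rw [h2, h3, h1]
        have key : ∀ k, tm (2 * k + 1 + 1) = !tm (2 * k + 1) → tm (k + 1) = tm k := by
          intro k hk
          rw [show 2 * k + 1 + 1 = 2 * (k + 1) by ring, tm_even, tm_odd] at hk
          simpa using hk
        have two : ∀ k, tm (k + 1) = tm k → tm (k + 1 + 1) = tm (k + 1) → False := by
          intro k h1 h2
          by_cases he : k % 2 = 0
          · rw [tm_ne_even k he] at h1; simp at h1
          · rw [tm_ne_even (k + 1) (by omega)] at h2; simp at h2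
        rcases Nat.even_or_odd' i with ⟨k, rfl | rfl⟩
        · refine two k (key k ?_) (key (k + 1) ?_)
          · have := hd2 1 (by omega); exact this
          · have := hd2 3 (by omega)
            rw [show 2 * k + 3 = 2 * (k + 1) + 1 by ring] at this; exact this
        · refine two k (key k ?_) (key (k + 1) ?_)
          · have := hd2 0 (by omega); exact this
          · have := hd2 2 (by omega)
            rw [show 2 * k + 1 + 2 = 2 * (k + 1) + 1 by ring] at this; exact this

/-- ternary square-free sequence -/
def sq (i : ℕ) : ℕ := (if tm (i + 1) then 1 else 0) + (if tm i then 0 else 1)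

lemma sq_le (i : ℕ) : sq i ≤ 2 := by
  unfold sq; split_ifs <;> omega

lemma sq_square_free (p : ℕ) (hp : 1 ≤ p) (i : ℕ) : ¬ ∀ j < p, sq (i + j + p) = sq (i + j) := by
  intro h
  let t : ℕ → ℤ := fun i => if tm i then 1 else 0
  have ht : ∀ i, t (i + 1) - t i = (sq i : ℤ) - 1 := by
    intro i
    simp only [t, sq]
    split_ifs <;> simp
  have hD : ∀ j ≤ p, t (i + j + p) - t (i + j) = t (i + p) - t i := by
    intro j hj
    induction j with
    | zero => simp
    | succ j ih =>
      have h1 := ih (by omega)
      have h2 := h j (by omega)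
      have h3 := ht (i + j + p)
      have h4 := ht (i + j)
      rw [show i + (j + 1) + p = i + j + p + 1 by ring, show i + (j + 1) = i + j + 1 by ring]
      rw [h2] at h3
      linarith
  have h0 : t (i + p) - t i = 0 := by
    have h1 := hD p le_rfl
    have a1 : ∀ i, t i = 0 ∨ t i = 1 := by
      intro i; simp only [t]; split_ifs <;> simp
    rcases a1 i with h2 | h2 <;> rcases a1 (i + p) with h3 | h3 <;>
      rcases a1 (i + p + p) with h4 | h4 <;> omega
  refine tm_overlap_free p hp i fun j hj => ?_
  have h1 := hD j hj
  rw [h0] at h1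
  simp only [t] at h1
  cases h2 : tm (i + j + p) <;> cases h3 : tm (i + j) <;> simp [h2, h3] at h1 ⊢

/-- no factor of the list of the first `N` values of `f` is a square, if `f` is square-free -/
lemma map_range_square {B : Type} (f : ℕ → B)
    (hf : ∀ p, 1 ≤ p → ∀ i, ¬ ∀ j < p, f (i + j + p) = f (i + j)) (N : ℕ) (s Z t : List B)
    (h : (List.range N).map f = s ++ (Z ++ Z) ++ t) : Z = [] := by
  by_contra hZ
  have hp : 1 ≤ Z.length := List.length_pos_iff.2 hZ
  have hl := congrArg List.length h
  simp only [List.length_map, List.length_range, List.length_append] at hl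
  refine hf Z.length hp s.length fun j hj => ?_
  have e1 : ((List.range N).map f)[s.length + j + Z.length]? = some (f (s.length + j + Z.length)) := by
    rw [List.getElem?_map, List.getElem?_range (by omega)]; rfl
  have e2 : ((List.range N).map f)[s.length + j]? = some (f (s.length + j)) := by
    rw [List.getElem?_map, List.getElem?_range (by omega)]; rfl
  rw [h, List.append_assoc, List.getElem?_append_right (by omega), List.append_assoc,
    List.getElem?_append_right (by omega), List.getElem?_append_left (by omega)] at e1
  rw [h, List.append_assoc, List.getElem?_append_right (by omega), List.append_assoc,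
    List.getElem?_append_left (by omega)] at e2
  rw [show s.length + j + Z.length - s.length - Z.length = j by omega] at e1
  rw [show s.length + j - s.length = j by omega] at e2
  exact Option.some.inj (e1.symm.trans e2)

/-! Splitting a list at markers -/

section parts
variable {α : Type} (μ : α → Bool)

lemma split_last (u : List α) :
    (∀ x ∈ u, μ x = false) ∨ ∃ u0 g s, μ g = true ∧ (∀ x ∈ s, μ x = false) ∧ u = u0 ++ g :: s := by
  induction u with
  | nil => left; simp
  | cons c u ih =>
    rcases ih with h | ⟨u0, g, s, hg, hs, rfl⟩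
    · by_cases hc : μ c = true
      · right; exact ⟨[], c, u, hc, h, rfl⟩
      · left
        intro x hx
        rcases List.mem_cons.1 hx with rfl | hx
        · simpa using hc
        · exact h x hx
    · right; exact ⟨c :: u0, g, s, hg, hs, rfl⟩

lemma split_first (u : List α) :
    (∀ x ∈ u, μ x = false) ∨ ∃ s g u0, μ g = true ∧ (∀ x ∈ s, μ x = false) ∧ u = s ++ g :: u0 := by
  induction u with
  | nil => left; simp
  | cons c u ih =>
    by_cases hc : μ c = true
    · right; exact ⟨[], c, u, hc, by simp, rfl⟩
    · have hc' : μ c = false := by simpa using hc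
      rcases ih with h | ⟨s, g, u0, hg, hs, rfl⟩
      · left
        intro x hx
        rcases List.mem_cons.1 hx with rfl | hx
        · exact hc'
        · exact h x hx
      · right
        refine ⟨c :: s, g, u0, hg, ?_, rfl⟩
        intro x hx
        rcases List.mem_cons.1 hx with rfl | hx
        · exact hc'
        · exact hs x hx

def partsAux : List α → List α → List (List α)
  | cur, [] => if cur = [] then [] else [cur]
  | cur, x :: xs => if μ x then (if cur = [] then [] else [cur]) ++ partsAux [] xs
      else partsAux (cur ++ [x]) xs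

/-- maximal nonempty marker-free segments -/
def parts (l : List α) : List (List α) := partsAux μ [] l

lemma partsAux_append (cur A : List α) (g : α) (B : List α) (hg : μ g = true) :
    partsAux μ cur (A ++ g :: B) = partsAux μ cur A ++ parts μ B := by
  induction A generalizing cur with
  | nil => simp [partsAux, hg, parts]
  | cons x A ih =>
    simp only [List.cons_append, partsAux]
    split_ifs <;> simp [ih]

lemma parts_append (A : List α) (g : α) (B : List α) (hg : μ g = true) :
    parts μ (A ++ g :: B) = parts μ A ++ parts μ B := partsAux_append μ [] A g B hg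

lemma partsAux_free (cur A : List α) (hA : ∀ x ∈ A, μ x = false) :
    partsAux μ cur A = if cur ++ A = [] then [] else [cur ++ A] := by
  induction A generalizing cur with
  | nil => simp [partsAux]
  | cons x A ih =>
    have hx : μ x = false := hA x (by simp)
    simp only [partsAux, hx]
    rw [if_neg (by simp), ih _ (fun y hy => hA y (by simp [hy]))]
    simp

lemma parts_free (A : List α) (hA : ∀ x ∈ A, μ x = false) (h : A ≠ []) : parts μ A = [A] := by
  unfold parts; rw [partsAux_free μ [] A hA]; simp [h]

@[simp] lemma parts_nil : parts μ [] = [] := rfl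

lemma parts_cons (g : α) (B : List α) (hg : μ g = true) : parts μ (g :: B) = parts μ B := by
  have := parts_append μ [] g B hg
  simpa using this

lemma parts_snoc (A : List α) (g : α) (hg : μ g = true) : parts μ (A ++ [g]) = parts μ A := by
  have := parts_append μ A g [] hg
  simpa using this

/-- left context -/
lemma ctx_left (u : List α) : ∃ pre s, (∀ x ∈ s, μ x = false) ∧
    (u = s ∨ ∃ u0 g, μ g = true ∧ u = u0 ++ g :: s) ∧
    ∀ r, parts μ (u ++ r) = pre ++ parts μ (s ++ r) := by
  rcases split_last μ u with h | ⟨u0, g, s, hg, hs, rfl⟩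
  · exact ⟨[], u, h, Or.inl rfl, fun r => rfl⟩
  · refine ⟨parts μ u0, s, hs, Or.inr ⟨u0, g, hg, rfl⟩, fun r => ?_⟩
    rw [List.append_assoc, List.cons_append, parts_append μ _ _ _ hg]

lemma ctx_right (u : List α) : ∃ post t, (∀ x ∈ t, μ x = false) ∧
    (u = t ∨ ∃ u0 g, μ g = true ∧ u = t ++ g :: u0) ∧
    ∀ r, parts μ (r ++ u) = parts μ (r ++ t) ++ post := by
  rcases split_first μ u with h | ⟨s, g, u0, hg, hs, rfl⟩
  · exact ⟨[], u, h, Or.inl rfl, fun r => by simp⟩
  · refine ⟨parts μ u0, s, hs, Or.inr ⟨u0, g, hg, rfl⟩, fun r => ?_⟩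
    rw [← List.append_assoc, parts_append μ _ _ _ hg]

lemma parts_ne_nil (c : α) (A : List α) (hc : μ c = false) : parts μ (c :: A) ≠ [] := by
  rcases split_first μ A with h | ⟨s, g, u0, hg, hs, rfl⟩
  · rw [parts_free μ (c :: A) (by simpa [hc] using h) (by simp)]; simp
  · rw [← List.cons_append, parts_append μ _ _ _ hg, parts_free μ (c :: s) (by simpa [hc] using hs) (by simp)]
    simp

lemma parts_ne_nil' (c : α) (A : List α) (hc : μ c = false) : parts μ (A ++ [c]) ≠ [] := by
  rcases split_last μ A with h | ⟨u0, g, s, hg, hs, rfl⟩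
  · rw [parts_free μ (A ++ [c]) (by
      intro x hx
      rcases List.mem_append.1 hx with hx | hx
      · exact h x hx
      · rw [List.mem_singleton.1 hx]; exact hc) (by simp)]; simp
  · rw [List.append_assoc, List.cons_append, parts_append μ _ _ _ hg, parts_free μ (s ++ [c]) (by
      intro x hx
      rcases List.mem_append.1 hx with hx | hx
      · exact hs x hx
      · rw [List.mem_singleton.1 hx]; exact hc) (by simp)]
    simp

/-- power with the last letter a marker -/
lemma parts_pw_marker (Y : List α) (g : α) (hg : μ g = true) (k : ℕ) (r : List α) :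
    parts μ (pw (Y ++ [g]) k ++ r) = pw (parts μ Y) k ++ parts μ r := by
  induction k with
  | zero => simp
  | succ k ih =>
    rw [pw_succ, pw_succ, List.append_assoc, List.append_assoc, List.singleton_append,
      parts_append μ _ _ _ hg, ih, List.append_assoc]

/-- near power whose period contains a marker inside `Y` -/
lemma parts_np (p M q : List α) (g G : α) (hg : μ g = true) (pre : List (List α))
    (hM : ∀ r, parts μ (M ++ r) = pre ++ parts μ (q ++ r)) (k : ℕ) (P Q : List α) :
    parts μ (P ++ pw (p ++ g :: M ++ [G]) k ++ (p ++ g :: M) ++ Q) =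
      parts μ (P ++ p) ++ pw (pre ++ parts μ (q ++ G :: p)) k ++ pre ++ parts μ (q ++ Q) := by
  have h1 : pw (p ++ g :: M ++ [G]) k ++ (p ++ g :: M) =
      p ++ g :: (pw (M ++ G :: p ++ [g]) k ++ M) := by
    have := pw_conj (p ++ [g]) (M ++ [G]) k
    have e1 : p ++ [g] ++ (M ++ [G]) = p ++ g :: M ++ [G] := by simp
    have e2 : M ++ [G] ++ (p ++ [g]) = M ++ G :: p ++ [g] := by simp
    rw [e1, e2] at this
    have e3 : p ++ g :: M = p ++ [g] ++ M := by simp
    rw [e3, ← List.append_assoc, ← e3, this]; simp
  rw [List.append_assoc P, h1, List.append_assoc, List.append_assoc, ← List.append_assoc P,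
    List.cons_append, parts_append μ _ _ _ hg, List.append_assoc, parts_pw_marker μ _ g hg, hM, hM]
  simp

end parts

end Pool.Agent.H739Z.Rw
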