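import Pool.Agent.H739Z.Rw.Basic

set_option autoImplicit false

namespace Pool.Agent.H739Z.Rw

open Relation

/-! Layer 0: binary words as lists of run lengths -/

def dec : List Bool → List ℕ
  | [] => [0]
  | false :: w => 0 :: dec w
  | true :: w => ((dec w).headD 0 + 1) :: (dec w).tail

lemma dec_ne_nil (w : List Bool) : dec w ≠ [] := by
  rcases w with _ | ⟨_ | _, w⟩ <;> simp [dec]

lemma dec_append (u v : List Bool) : dec (u ++ false :: v) = dec u ++ dec v := by
  induction u with
  | nil => simp [dec]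
  | cons c u ih =>
    cases c
    · simp [dec, ih]
    · simp only [List.cons_append, dec, ih]
      obtain ⟨x, l, h⟩ := List.exists_cons_of_ne_nil (dec_ne_nil u)
      rw [h]; simp

lemma dec_rep (i : ℕ) : dec (List.replicate i true) = [i] := by
  induction i with
  | zero => rfl
  | succ i ih => simp [List.replicate_succ, dec, ih]

lemma rep_of_free (s : List Bool) (hs : ∀ x ∈ s, (!x) = false) : s = List.replicate s.length true :=
  List.eq_replicate_iff.2 ⟨rfl, fun c hc => by simpa using hs c hc⟩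

lemma dec_left (u : List Bool) : ∃ pre i, ∀ r, dec (u ++ r) = pre ++ dec (List.replicate i true ++ r) := by
  rcases split_last (fun x => !x) u with h | ⟨u0, g, s, hg, hs, rfl⟩
  · exact ⟨[], u.length, fun r => by rw [← rep_of_free u h]; rfl⟩
  · have : g = false := by simpa using hg
    subst this
    exact ⟨dec u0, s.length, fun r => by
      rw [← rep_of_free s hs, List.append_assoc, List.cons_append, dec_append]⟩

lemma dec_right (u : List Bool) : ∃ post i, ∀ r, dec (r ++ u) = dec (r ++ List.replicate i true) ++ post := by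
  rcases split_first (fun x => !x) u with h | ⟨s, g, u0, hg, hs, rfl⟩
  · exact ⟨[], u.length, fun r => by rw [← rep_of_free u h]; simp⟩
  · have : g = false := by simpa using hg
    subst this
    exact ⟨dec u0, s.length, fun r => by
      rw [← rep_of_free s hs, ← List.append_assoc, dec_append]⟩

def NStep (k m : ℕ) (L L' : List ℕ) : Prop :=
  (∃ pre post i i', i ≤ i' ∧ (i' = i ∨ 2 ≤ i) ∧ L = pre ++ i :: post ∧ L' = pre ++ i' :: post) ∨
  (∃ pre post Y a b c, c ≤ a + b ∧ L = pre ++ [a] ++ pw (Y ++ [c]) k ++ Y ++ b :: post ∧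
    L' = pre ++ [a] ++ pw (Y ++ [c]) (k + m) ++ Y ++ b :: post)

lemma dec_pw (p q : ℕ) (x' : List Bool) (Y : List ℕ)
    (hY : ∀ r, dec (x' ++ r) = Y ++ dec (List.replicate q true ++ r)) (t k s : ℕ) :
    dec (List.replicate s true ++ pw (List.replicate p true ++ false :: x') (k + 1) ++
      List.replicate t true) = [s + p] ++ pw (Y ++ [q + p]) k ++ Y ++ [q + t] := by
  induction k generalizing s with
  | zero =>
    rw [zero_add, pw_one, ← List.append_assoc, ← List.replicate_add, List.append_assoc,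
      List.cons_append, dec_append, dec_rep, hY, ← List.replicate_add, dec_rep]
    simp
  | succ k ih =>
    rw [pw_succ, ← List.append_assoc, ← List.append_assoc, ← List.replicate_add, List.append_assoc,
      List.append_assoc, List.cons_append, dec_append, dec_rep, hY, ← List.append_assoc (List.replicate q true), ih q, pw_succ]
    simp

lemma step_nstep (k m : ℕ) (hk : 1 ≤ k) (y z : List Bool) (h : Step (k + 1) m y z) :
    NStep k m (dec y) (dec z) := by
  obtain ⟨u, v, x, rfl, rfl⟩ := h
  obtain ⟨pre, s, hu⟩ := dec_left u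
  obtain ⟨post, t, hv⟩ := dec_right v
  have key : ∀ X, dec (u ++ X ++ v) =
      pre ++ dec (List.replicate s true ++ X ++ List.replicate t true) ++ post := by
    intro X
    rw [hv, List.append_assoc, hu, List.append_assoc, List.append_assoc]
    simp
  rw [key, key]
  rcases split_first (fun x => !x) x with h | ⟨p, g, x', hg, hp, rfl⟩
  · left
    rw [rep_of_free x h, pw_replicate, pw_replicate, ← List.replicate_add, ← List.replicate_add,
      ← List.replicate_add, ← List.replicate_add, dec_rep, dec_rep]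
    refine ⟨pre, post, s + (k + 1) * x.length + t, s + (k + 1 + m) * x.length + t, ?_, ?_, by simp, by simp⟩
    · nlinarith [Nat.zero_le (m * x.length)]
    · rcases Nat.eq_zero_or_pos x.length with h0 | h0
      · left; rw [h0]; simp
      · right; nlinarith
  · right
    have : g = false := by simpa using hg
    subst this
    obtain ⟨Y, q, hY⟩ := dec_left x'
    rw [rep_of_free p hp, dec_pw _ q x' Y hY, show k + 1 + m = k + m + 1 by ring, dec_pw _ q x' Y hY]
    exact ⟨pre, post, Y, s + p.length, q + t, q + p.length, by omega, by simp, by simp⟩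

/-! near powers -/

def NP {α : Type} (k m : ℕ) (L L' : List α) : Prop :=
  ∃ P Q Y G, L = P ++ pw (Y ++ [G]) k ++ Y ++ Q ∧ L' = P ++ pw (Y ++ [G]) (k + m) ++ Y ++ Q

lemma NP.mem {α : Type} {k m : ℕ} (hk : 1 ≤ k) {L L' : List α} (h : NP k m L L') :
    ∀ x ∈ L', x ∈ L := by
  obtain ⟨P, Q, Y, G, rfl, rfl⟩ := h
  intro x hx
  simp only [List.mem_append] at hx ⊢
  rcases hx with ((hx | hx) | hx) | hx
  · tauto
  · exact Or.inl (Or.inl (Or.inr (mem_pw_of hk (mem_pw hx))))
  · tauto
  · tauto

lemma np_full {α : Type} (k m : ℕ) (P H Q : List α) :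
    P ++ pw H (k + m) ++ H ++ Q = P ++ pw H k ++ H ++ Q ∨
      NP k m (P ++ pw H k ++ H ++ Q) (P ++ pw H (k + m) ++ H ++ Q) := by
  rcases List.eq_nil_or_concat H with rfl | ⟨Y, G, rfl⟩
  · left; simp
  · right
    rw [List.concat_eq_append]
    exact ⟨P, G :: Q, Y, G, by simp, by simp⟩

/-! blocks -/

def fst (B : List ℕ) : ℕ := B.headD 0
def lst (B : List ℕ) : ℕ := B.getLastD 0

lemma fst_append (B C : List ℕ) (h : B ≠ []) : fst (B ++ C) = fst B := by
  obtain ⟨x, l, rfl⟩ := List.exists_cons_of_ne_nil h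
  rfl
lemma lst_snoc (B : List ℕ) (x : ℕ) : lst (B ++ [x]) = x := by simp [lst]
lemma lst_append (B C : List ℕ) (h : C ≠ []) : lst (B ++ C) = lst C := by
  rcases List.eq_nil_or_concat C with rfl | ⟨Y, G, rfl⟩
  · exact absurd rfl h
  · rw [List.concat_eq_append, ← List.append_assoc, lst_snoc, lst_snoc]
lemma fst_mem (B : List ℕ) (h : B ≠ []) : fst B ∈ B := by
  obtain ⟨x, l, rfl⟩ := List.exists_cons_of_ne_nil h
  simp [fst]
lemma lst_mem (B : List ℕ) (h : B ≠ []) : lst B ∈ B := by
  rcases List.eq_nil_or_concat B with rfl | ⟨Y, G, rfl⟩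
  · exact absurd rfl h
  · rw [List.concat_eq_append, lst_snoc]; simp

def Ch (B : List ℕ) : Prop := List.IsChain (fun x y => x = 0 ∨ y = 0) B

lemma Ch.adj {s t : List ℕ} (h : Ch (s ++ t)) (hs : s ≠ []) (ht : t ≠ []) : lst s = 0 ∨ fst t = 0 := by
  rcases List.eq_nil_or_concat s with rfl | ⟨Y, G, rfl⟩
  · exact absurd rfl hs
  obtain ⟨x, l, rfl⟩ := List.exists_cons_of_ne_nil ht
  rw [List.concat_eq_append] at h ⊢
  rw [lst_snoc]
  exact (List.isChain_append.1 h).2.2 G (by simp) x (by simp)

lemma Ch.left {s t : List ℕ} (h : Ch (s ++ t)) : Ch s := (List.isChain_append.1 h).1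
lemma Ch.right {s t : List ℕ} (h : Ch (s ++ t)) : Ch t := (List.isChain_append.1 h).2.1

lemma Ch.app {s t : List ℕ} (h1 : Ch s) (h2 : Ch t) (h : s ≠ [] → t ≠ [] → lst s = 0 ∨ fst t = 0) :
    Ch (s ++ t) := by
  refine List.isChain_append.2 ⟨h1, h2, ?_⟩
  intro x hx y hy
  rcases List.eq_nil_or_concat s with rfl | ⟨Y, G, rfl⟩
  · simp at hx
  rcases t with _ | ⟨z, l⟩
  · simp at hy
  rw [List.concat_eq_append] at h hx
  have := h (by simp) (by simp)
  rw [lst_snoc] at this
  simp at hx hy
  subst hx hy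
  exact this

def WF (B : List ℕ) : Prop := 3 ≤ fst B ∧ 3 ≤ lst B ∧ (∀ x ∈ B, x = 0 ∨ 3 ≤ x) ∧ Ch B
def Zr (B : List ℕ) : Prop := ∀ x ∈ B, x = 0

def BStep (k m : ℕ) (B B' : List ℕ) : Prop :=
  (∃ s t i i', i ≤ i' ∧ 2 ≤ i ∧ B = s ++ i :: t ∧ B' = s ++ i' :: t) ∨
  (∃ s t Y c, c ≤ s.getLastD 1 + t.headD 1 ∧ B = s ++ pw (Y ++ [c]) k ++ Y ++ t ∧
    B' = s ++ pw (Y ++ [c]) (k + m) ++ Y ++ t)

section bstep
variable {k m : ℕ} {B B' : List ℕ}

lemma fst_np (k : ℕ) (hk : 1 ≤ k) (s Z r : List ℕ) (hZ : Z ≠ []) :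
    fst (s ++ pw Z k ++ r) = fst (s ++ Z) := by
  obtain ⟨k, rfl⟩ : ∃ j, k = j + 1 := ⟨k - 1, by omega⟩
  rw [pw_succ, ← List.append_assoc, List.append_assoc, fst_append _ _ (by simp [hZ])]

lemma lst_np (k : ℕ) (hk : 1 ≤ k) (s Z r : List ℕ) (hZ : Z ≠ []) :
    lst (s ++ pw Z k ++ r) = lst (Z ++ r) := by
  obtain ⟨k, rfl⟩ : ∃ j, k = j + 1 := ⟨k - 1, by omega⟩
  rw [pw_succ', ← List.append_assoc, List.append_assoc, lst_append _ _ (by simp [hZ])]

lemma BStep.fst_le (hk : 1 ≤ k) (h : BStep k m B B') : fst B ≤ fst B' := by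
  rcases h with ⟨s, t, i, i', h1, _, rfl, rfl⟩ | ⟨s, t, Y, c, _, rfl, rfl⟩
  · rcases s with _ | ⟨x, s⟩
    · exact h1
    · exact le_rfl
  · rw [List.append_assoc _ Y, List.append_assoc _ Y, fst_np _ hk _ _ _ (by simp),
      fst_np _ (by omega) _ _ _ (by simp)]

lemma BStep.lst_le (hk : 1 ≤ k) (h : BStep k m B B') : lst B ≤ lst B' := by
  rcases h with ⟨s, t, i, i', h1, _, rfl, rfl⟩ | ⟨s, t, Y, c, _, rfl, rfl⟩
  · rcases eq_or_ne t [] with rfl | ht
    · rw [lst_snoc, lst_snoc]; exact h1
    · have e : ∀ j : ℕ, s ++ j :: t = (s ++ [j]) ++ t := by simp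
      rw [e, e, lst_append _ _ ht, lst_append _ _ ht]
  · rw [List.append_assoc _ Y, List.append_assoc _ Y, lst_np _ hk _ _ _ (by simp),
      lst_np _ (by omega) _ _ _ (by simp)]

lemma BStep.zr (hk : 1 ≤ k) (h : BStep k m B B') (hB : Zr B) : Zr B' := by
  rcases h with ⟨s, t, i, i', _, h2, rfl, rfl⟩ | ⟨s, t, Y, c, _, rfl, rfl⟩
  · have := hB i (by simp); omega
  · intro x hx
    exact hB x (NP.mem (m := m) hk ⟨s, t, Y, c, rfl, rfl⟩ x hx)

lemma getLastD_eq (s : List ℕ) (hs : s ≠ []) : s.getLastD 1 = lst s := by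
  rcases List.eq_nil_or_concat s with rfl | ⟨Y, G, rfl⟩
  · exact absurd rfl hs
  · rw [List.concat_eq_append, lst_snoc]; simp

lemma headD_eq (s : List ℕ) (hs : s ≠ []) : s.headD 1 = fst s := by
  obtain ⟨x, l, rfl⟩ := List.exists_cons_of_ne_nil hs
  rfl

lemma single_zero (hk : 1 ≤ k) (s t : List ℕ) (c : ℕ) (hc : c ≤ s.getLastD 1 + t.headD 1)
    (hB : WF (s ++ pw [c] k ++ t)) : c = 0 := by
  by_contra h0
  have h3 : 3 ≤ c := by
    have := hB.2.2.1 c (by
      simp only [List.mem_append]; exact Or.inl (Or.inr (mem_pw_of hk (by simp))))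
    omega
  have hne : pw [c] k ≠ [] := by
    intro h; have := congrArg List.length h; simp at this; omega
  have ha : s.getLastD 1 ≤ 1 := by
    rcases eq_or_ne s [] with rfl | hs
    · simp
    · rw [getLastD_eq s hs]
      have h1 := (hB.2.2.2.left).adj hs hne
      have h2 : fst (pw [c] k) = c := by
        have := fst_np k hk [] [c] [] (by simp)
        simpa [fst] using this
      omega
  have hb : t.headD 1 ≤ 1 := by
    rcases eq_or_ne t [] with rfl | ht
    · simp
    · rw [headD_eq t ht]
      have h1 := hB.2.2.2.adj (by simp [hne]) ht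
      have h2 : lst (s ++ pw [c] k) = c := by
        have := lst_np k hk s [c] [] (by simp)
        simpa [lst] using this
      omega
  omega

lemma ch_pw (k m : ℕ) (hk : 1 ≤ k) (s Z r : List ℕ) (hZ : lst Z = 0 ∨ fst Z = 0)
    (h : Ch (s ++ pw Z k ++ r)) : Ch (s ++ pw Z (k + m) ++ r) := by
  rcases eq_or_ne Z [] with rfl | hne
  · simpa using h
  induction m with
  | zero => exact h
  | succ m ih =>
    obtain ⟨j, hj⟩ : ∃ j, k + m = j + 1 := ⟨k + m - 1, by omega⟩
    rw [← add_assoc, hj, pw_succ, pw_succ]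
    rw [hj, pw_succ] at ih
    have e1 : s ++ (Z ++ (Z ++ pw Z j)) ++ r = (s ++ Z) ++ (Z ++ pw Z j ++ r) := by simp
    have e2 : s ++ (Z ++ pw Z j) ++ r = (s ++ Z) ++ (pw Z j ++ r) := by simp
    have e3 : s ++ (Z ++ pw Z j) ++ r = s ++ (Z ++ pw Z j ++ r) := by simp
    rw [e1]
    refine Ch.app (e2 ▸ ih).left (e3 ▸ ih).right fun _ _ => ?_
    rw [lst_append _ _ hne, List.append_assoc, fst_append _ _ hne]
    exact hZ

lemma BStep.wf (hk : 1 ≤ k) (h : BStep k m B B') (hB : WF B) : WF B' := by
  refine ⟨hB.1.trans (h.fst_le hk), hB.2.1.trans (h.lst_le hk), ?_, ?_⟩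
  · rcases h with ⟨s, t, i, i', h1, h2, rfl, rfl⟩ | ⟨s, t, Y, c, _, rfl, rfl⟩
    · intro x hx
      simp only [List.mem_append, List.mem_cons] at hx
      rcases hx with hx | rfl | hx
      · exact hB.2.2.1 x (by simp [hx])
      · have := hB.2.2.1 i (by simp); omega
      · exact hB.2.2.1 x (by simp [hx])
    · intro x hx
      exact hB.2.2.1 x (NP.mem (m := m) hk ⟨s, t, Y, c, rfl, rfl⟩ x hx)
  · rcases h with ⟨s, t, i, i', h1, h2, rfl, rfl⟩ | ⟨s, t, Y, c, hc, rfl, rfl⟩
    · have hC := hB.2.2.2
      have e : ∀ j : ℕ, j :: t = [j] ++ t := by simp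
      refine Ch.app hC.left ?_ fun hs _ => ?_
      · rw [e]
        have h3 : Ch ([i] ++ t) := hC.right
        refine Ch.app (List.isChain_singleton _) h3.right fun _ ht => ?_
        have := h3.adj (by simp) ht
        have h4 : lst [i] = i := rfl
        right; omega
      · have := hC.adj hs (by simp)
        simp only [fst, List.headD_cons] at this
        left; omega
    · rw [List.append_assoc _ Y]
      refine ch_pw k m hk s _ _ ?_ (by rw [← List.append_assoc]; exact hB.2.2.2)
      rw [lst_snoc]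
      rcases eq_or_ne Y [] with rfl | hY
      · left
        exact single_zero hk s t c hc (by simpa using hB)
      · rw [fst_append _ _ hY]
        have hne : pw (Y ++ [c]) k ≠ [] := by
          intro h; have := congrArg List.length h; simp at this; omega
        have h1 := (hB.2.2.2.left).adj (by simp [hne]) hY
        have h2 : lst (s ++ pw (Y ++ [c]) k) = c := by
          have := lst_np k hk s (Y ++ [c]) [] (by simp)
          rw [List.append_nil, List.append_nil, lst_snoc] at this
          exact this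
        rwa [h2] at h1

end bstep

def bigs (B : List ℕ) : List ℕ := B.filter (fun x => x ≠ 0)

lemma bigs_append (B C : List ℕ) : bigs (B ++ C) = bigs B ++ bigs C := List.filter_append _ _
lemma bigs_cons (x : ℕ) (hx : x ≠ 0) (C : List ℕ) : bigs (x :: C) = x :: bigs C := by
  simp [bigs, hx]
lemma bigs_pw (Z : List ℕ) (k : ℕ) : bigs (pw Z k) = pw (bigs Z) k := by
  induction k with
  | zero => rfl
  | succ k ih => rw [pw_succ, pw_succ, bigs_append, ih]
lemma fst_bigs (B : List ℕ) (h : 3 ≤ fst B) : ∃ l, bigs B = fst B :: l := by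
  rcases B with _ | ⟨x, l⟩
  · simp [fst] at h
  · simp only [fst, List.headD_cons] at h ⊢
    exact ⟨_, bigs_cons x (by omega) l⟩
lemma lst_bigs (B : List ℕ) (h : 3 ≤ lst B) : ∃ l, bigs B = l ++ [lst B] := by
  rcases List.eq_nil_or_concat B with rfl | ⟨Y, G, rfl⟩
  · simp [lst] at h
  · rw [List.concat_eq_append, lst_snoc] at h ⊢
    exact ⟨bigs Y, by rw [bigs_append, bigs_cons G (by omega)]; rfl⟩
lemma mem_bigs {B : List ℕ} {x : ℕ} (h : x ∈ B) : x = 0 ∨ x ∈ bigs B := by
  by_cases h0 : x = 0
  · exact Or.inl h0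
  · right; simp [bigs, h, h0]

def K0 (k I : ℕ) (B : List ℕ) : Prop :=
  (bigs B).length = k + 2 ∧ ∀ u x v, bigs B = u ++ x :: v → u ≠ [] → v ≠ [] → I ≤ x
def K1 (k I : ℕ) (B : List ℕ) : Prop := WF B ∧ (I ≤ fst B + lst B ∨ K0 k I B)
def K2 (k : ℕ) (B : List ℕ) : Prop := k + 3 ≤ (bigs B).length

lemma BStep.k2 {k m : ℕ} {B B' : List ℕ} (h : BStep k m B B') (hB : K2 k B) : K2 k B' := by
  unfold K2 at *
  rcases h with ⟨s, t, i, i', h1, h2, rfl, rfl⟩ | ⟨s, t, Y, c, _, rfl, rfl⟩
  · rw [bigs_append, bigs_cons _ (by omega)] at hB ⊢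
    simpa using hB
  · simp only [bigs_append, bigs_pw, List.length_append, length_pw] at hB ⊢
    nlinarith [Nat.zero_le (m * ((bigs Y).length + (bigs [c]).length))]

lemma BStep.k1 {k m I : ℕ} (hk : 1 ≤ k) {B B' : List ℕ} (h : BStep k m B B') (hB : K1 k I B) :
    K1 k I B' := by
  refine ⟨h.wf hk hB.1, ?_⟩
  have h1 := h.fst_le hk
  have h2 := h.lst_le hk
  by_cases hs : I ≤ fst B + lst B
  · left; omega
  right
  have hW := hB.1
  obtain ⟨hlen, hin⟩ : K0 k I B := hB.2.resolve_left hs
  obtain ⟨l1, hl1⟩ := fst_bigs B hW.1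
  obtain ⟨l2, hl2⟩ := lst_bigs B hW.2.1
  rcases h with ⟨s, t, i, i', h3, h4, rfl, rfl⟩ | ⟨s, t, Y, c, hc, rfl, rfl⟩
  · unfold K0
    rw [bigs_append, bigs_cons _ (by omega)] at hlen hin ⊢
    refine ⟨by simpa using hlen, fun u x v e hu hv => ?_⟩
    rcases List.append_eq_append_iff.1 e with ⟨a, rfl, e2⟩ | ⟨a, e1, e2⟩
    · rcases a with _ | ⟨y, a⟩
      · simp only [List.nil_append, List.cons.injEq] at e2
        obtain ⟨rfl, rfl⟩ := e2
        have := hin (bigs s) i (bigs t) rfl (by simpa using hu) hv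
        omega
      · simp only [List.cons_append, List.cons.injEq] at e2
        obtain ⟨rfl, e2⟩ := e2
        exact hin (bigs s ++ i :: a) x v (by rw [e2]; simp) (by simp) hv
    · rcases a with _ | ⟨y, a⟩
      · simp only [List.nil_append, List.cons.injEq] at e2
        obtain ⟨rfl, rfl⟩ := e2
        have := hin u i (bigs t) (by rw [e1]; simp) hu hv
        omega
      · simp only [List.cons_append, List.cons.injEq] at e2
        obtain ⟨rfl, rfl⟩ := e2
        exact hin u x (a ++ i :: bigs t) (by rw [e1]; simp) hu (by simp)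
  · by_cases hZ : bigs (Y ++ [c]) = []
    · unfold K0
      rw [bigs_append, bigs_append, bigs_append, bigs_pw, hZ, pw_nil] at hlen hin ⊢
      exact ⟨hlen, hin⟩
    exfalso
    obtain ⟨k, rfl⟩ : ∃ j, k = j + 1 := ⟨k - 1, by omega⟩
    by_cases hc0 : c = 0
    · subst hc0
      have e0 : bigs (Y ++ [0]) = bigs Y := by rw [bigs_append]; simp [bigs]
      rw [bigs_append, bigs_append, bigs_append, bigs_pw, e0] at hlen hin hl1 hl2
      rw [e0] at hZ
      have hy : (bigs Y).length = 1 := by
        have := List.length_pos_iff.2 hZ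
        simp only [List.length_append, length_pw] at hlen
        by_contra h5
        have : 2 ≤ (bigs Y).length := by omega
        nlinarith
      obtain ⟨x, hx⟩ := List.length_eq_one_iff.1 hy
      rw [hx] at hlen hin hl1 hl2
      simp only [List.length_append, length_pw, List.length_singleton] at hlen
      rcases eq_or_ne (bigs s) [] with h5 | h5
      · rw [h5] at hin hl1 hlen
        have h6 : bigs t ≠ [] := by
          intro h; rw [h] at hlen; simp at hlen
        have h7 := hin [x] x (pw [x] k ++ bigs t) (by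
          rw [List.nil_append, ← pw_succ', pw_succ, pw_succ]; simp) (by simp) (by simp [h6])
        rw [pw_succ] at hl1
        simp only [List.nil_append, List.cons_append, List.cons.injEq] at hl1
        omega
      · have h6 : bigs t = [] := by
          have := List.length_pos_iff.2 h5
          apply List.length_eq_zero_iff.1; omega
        rw [h6] at hin hl2
        have h7 := hin (bigs s ++ pw [x] k) x [x] (by rw [pw_succ']; simp) (by simp [h5]) (by simp)
        rw [List.append_nil] at hl2
        have := List.append_inj_right' hl2 rfl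
        simp only [List.cons.injEq, and_true] at this
        omega
    · have hY : Y ≠ [] := by
        rintro rfl
        exact hc0 (single_zero hk s t c hc (by simpa using hW))
      have hC := hW.2.2.2
      have hY1 : fst Y = 0 := by
        have hne : pw (Y ++ [c]) (k + 1) ≠ [] := by
          intro h; have := congrArg List.length h; simp at this
        have h5 := (hC.left).adj (by simp [hne]) hY
        have h6 : lst (s ++ pw (Y ++ [c]) (k + 1)) = c := by
          have := lst_np (k + 1) hk s (Y ++ [c]) [] (by simp)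
          rw [List.append_nil, List.append_nil, lst_snoc] at this
          exact this
        omega
      have hY2 : lst Y = 0 := by
        have e : s ++ pw (Y ++ [c]) (k + 1) ++ Y ++ t =
            (s ++ Y) ++ ([c] ++ (pw (Y ++ [c]) k ++ Y ++ t)) := by rw [pw_succ]; simp
        rw [e] at hC
        have h5 := hC.adj (by simp [hY]) (by simp)
        rw [lst_append _ _ hY] at h5
        simp only [fst, List.singleton_append, List.headD_cons] at h5
        omega
      have hs1 : s ≠ [] := by
        rintro rfl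
        have := hW.1
        rw [List.append_assoc, fst_np _ hk _ _ _ (by simp), List.nil_append, fst_append _ _ hY] at this
        omega
      have ht1 : t ≠ [] := by
        rintro rfl
        have := hW.2.1
        rw [List.append_nil, lst_append _ _ hY] at this
        omega
      have hf : fst (s ++ pw (Y ++ [c]) (k + 1) ++ Y ++ t) = fst s := by
        rw [List.append_assoc, List.append_assoc, fst_append _ _ hs1]
      have hl : lst (s ++ pw (Y ++ [c]) (k + 1) ++ Y ++ t) = lst t := lst_append _ _ ht1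
      have hW1 := hW.1
      have hW2 := hW.2.1
      rw [hf] at hW1 hs
      rw [hl] at hW2 hs
      obtain ⟨a1, ha1⟩ := fst_bigs s hW1
      obtain ⟨a2, ha2⟩ := lst_bigs t hW2
      have e0 : bigs (Y ++ [c]) = bigs Y ++ [c] := by rw [bigs_append, bigs_cons c hc0]; rfl
      rw [bigs_append, bigs_append, bigs_append, bigs_pw, e0, ha1, ha2] at hlen hin
      simp only [List.length_append, length_pw, List.length_cons, List.length_nil] at hlen
      have h5 : (bigs Y).length = 0 ∧ a1.length = 0 ∧ a2.length = 0 := by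
        refine ⟨?_, ?_, ?_⟩ <;> nlinarith [Nat.zero_le ((k + 1) * (bigs Y).length)]
      obtain ⟨h5, h6, h7⟩ := h5
      rw [List.length_eq_zero_iff] at h5 h6 h7
      rw [h5, h6, h7] at hin
      rw [h6] at ha1
      rw [h7] at ha2
      have h8 := hin [fst s] c (pw [c] k ++ [lst t]) (by rw [List.nil_append, pw_succ]; simp)
        (by simp) (by simp)
      rw [getLastD_eq s hs1, headD_eq t ht1] at hc
      have h9 := mem_bigs (lst_mem s hs1)
      have h10 := mem_bigs (fst_mem t ht1)
      rw [ha1] at h9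
      rw [ha2] at h10
      simp only [List.mem_singleton, List.nil_append] at h9 h10
      omega

end Pool.Agent.H739Z.Rw
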