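import Mathlib

set_option autoImplicit false

namespace Pool.Agent.H739Z.Rw

/-- The power `x^k` of the word `x`: the concatenation of `k` copies of `x`. -/
def pw {A : Type} (x : List A) (k : ℕ) : List A := (List.replicate k x).flatten

/-- One-step derivation: a factor `x^n` is replaced by `x^(n+m)`. -/
def Step {A : Type} (n m : ℕ) (y z : List A) : Prop :=
  ∃ u v x : List A, y = u ++ pw x n ++ v ∧ z = u ++ pw x (n + m) ++ v

/-- The language `L(w)` of all words obtained from `w` by finitely many one-step derivations. -/
def Lang {A : Type} (n m : ℕ) (w : List A) : Language A :=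
  {v | Relation.ReflTransGen (Step n m) w v}

end Pool.Agent.H739Z.Rw
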