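import Pool.Agent.H739Z.Rw.Blocks

set_option autoImplicit false

namespace Pool.Agent.H739Z.Rw

open Relation

/-! Layer 1: splitting at the entries `1` -/

def mu1 (x : ℕ) : Bool := x == 1
def comps (L : List ℕ) : List (List ℕ) := parts mu1 L

def Val (B : List ℕ) : Prop := Zr B ∨ WF B

def CStep (k m : ℕ) (C C' : List (List ℕ)) : Prop :=
  C' = C ∨ (∃ P Q B B', BStep k m B B' ∧ C = P ++ B :: Q ∧ C' = P ++ B' :: Q) ∨ NP k m C C'

lemma clashL (s Y t : List ℕ) (hs : s ≠ []) (hY : Y ≠ []) (h0 : lst s ≠ 0) (h1 : Val (s ++ Y))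
    (h2 : Val (Y ++ t)) : False := by
  have hW : WF (s ++ Y) := h1.resolve_left fun h => h0 (h _ (List.mem_append_left _ (lst_mem s hs)))
  have h3 := hW.2.2.2.adj hs hY
  have h4 : Zr (Y ++ t) := h2.resolve_right fun h => by
    have := h.1; rw [fst_append _ _ hY] at this; omega
  have h5 := h4 _ (List.mem_append_left _ (lst_mem Y hY))
  have := hW.2.1
  rw [lst_append _ _ hY] at this
  omega

lemma clashR (s Y t : List ℕ) (ht : t ≠ []) (hY : Y ≠ []) (h0 : fst t ≠ 0) (h1 : Val (s ++ Y))
    (h2 : Val (Y ++ t)) : False := by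
  have hW : WF (Y ++ t) := h2.resolve_left fun h => h0 (h _ (List.mem_append_right _ (fst_mem t ht)))
  have h3 := hW.2.2.2.adj hY ht
  have h4 : Zr (s ++ Y) := h1.resolve_right fun h => by
    have := h.2.1; rw [lst_append _ _ hY] at this; omega
  have h5 := h4 _ (List.mem_append_right _ (fst_mem Y hY))
  have := hW.1
  rw [fst_append _ _ hY] at this
  omega

lemma free_app {α : Type} {μ : α → Bool} {s t : List α} (hs : ∀ x ∈ s, μ x = false)
    (ht : ∀ x ∈ t, μ x = false) : ∀ x ∈ s ++ t, μ x = false := by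
  intro x hx
  rcases List.mem_append.1 hx with h | h
  · exact hs x h
  · exact ht x h

lemma free_cons {α : Type} {μ : α → Bool} {c : α} {t : List α} (hc : μ c = false)
    (ht : ∀ x ∈ t, μ x = false) : ∀ x ∈ c :: t, μ x = false := by
  intro x hx
  rcases List.mem_cons.1 hx with rfl | h
  · exact hc
  · exact ht x h

lemma free_pw {α : Type} {μ : α → Bool} {t : List α} (k : ℕ)
    (ht : ∀ x ∈ t, μ x = false) : ∀ x ∈ pw t k, μ x = false := fun x hx => ht x (mem_pw hx)

lemma parts_marker_free {α : Type} (μ : α → Bool) (s Y t : List α) (g : α) (hg : μ g = true)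
    (k : ℕ) : parts μ (s ++ pw (Y ++ [g]) (k + 1) ++ Y ++ t) =
      parts μ (s ++ Y) ++ pw (parts μ Y) k ++ parts μ (Y ++ t) := by
  have e : s ++ pw (Y ++ [g]) (k + 1) ++ Y ++ t = (s ++ Y) ++ g :: (pw (Y ++ [g]) k ++ (Y ++ t)) := by
    rw [pw_succ]; simp
  rw [e, parts_append μ _ _ _ hg, parts_pw_marker μ _ _ hg, List.append_assoc]

lemma nstep_cstep (k m : ℕ) (hk : 1 ≤ k) (L L' : List ℕ) (hV : ∀ B ∈ comps L, Val B)
    (h : NStep k m L L') : CStep k m (comps L) (comps L') := by
  unfold comps at *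
  rcases h with ⟨pre, post, i, i', h1, h2, rfl, rfl⟩ | ⟨pre, post, Y, a, b, c, hc, rfl, rfl⟩
  · rcases h2 with rfl | h2
    · exact Or.inl rfl
    obtain ⟨pre', s, hs, -, hpre⟩ := ctx_left mu1 pre
    obtain ⟨post', t, ht, -, hpost⟩ := ctx_right mu1 post
    have key : ∀ j, 2 ≤ j → parts mu1 (pre ++ j :: post) = pre' ++ (s ++ j :: t) :: post' := by
      intro j hj
      have e : s ++ j :: post = (s ++ [j]) ++ post := by simp
      rw [hpre, e, hpost, parts_free mu1 _ (free_app (free_app hs (by
        intro x hx; rw [List.mem_singleton.1 hx]; simp [mu1]; omega)) ht) (by simp)]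
      simp
    rw [key i h2, key i' (by omega)]
    exact Or.inr (Or.inl ⟨pre', post', _, _, Or.inl ⟨s, t, i, i', h1, h2, rfl, rfl⟩, rfl, rfl⟩)
  obtain ⟨pre', s, hs, hs', hpre⟩ := ctx_left mu1 (pre ++ [a])
  obtain ⟨post', t, ht, ht', hpost⟩ := ctx_right mu1 (b :: post)
  have ha : a = s.getLastD 1 := by
    rcases hs' with e | ⟨u0, g, hg, e⟩
    · rw [← e]; simp
    · have hg1 : g = 1 := by simpa [mu1] using hg
      subst hg1
      rcases List.eq_nil_or_concat s with rfl | ⟨s', y, rfl⟩
      · simpa using List.append_inj_right' e rfl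
      · rw [List.concat_eq_append, ← List.cons_append, ← List.append_assoc] at e
        simpa using List.append_inj_right' e rfl
  have hb : b = t.headD 1 := by
    rcases ht' with e | ⟨u0, g, hg, e⟩
    · rw [← e]; simp
    · have hg1 : g = 1 := by simpa [mu1] using hg
      subst hg1
      rcases t with _ | ⟨y, t'⟩
      · simpa using (List.cons.inj e).1
      · simpa using (List.cons.inj e).1
  have key : ∀ X, parts mu1 (pre ++ [a] ++ X ++ b :: post) =
      pre' ++ parts mu1 (s ++ X ++ t) ++ post' := by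
    intro X
    rw [List.append_assoc, hpre, ← List.append_assoc, hpost]; simp
  have hab : s ≠ [] → t ≠ [] → c = 1 → lst s ≠ 0 ∨ fst t ≠ 0 := by
    intro h1 h2 h3
    rw [getLastD_eq s h1] at ha
    rw [headD_eq t h2] at hb
    omega
  have key' : ∀ j, parts mu1 (pre ++ [a] ++ pw (Y ++ [c]) j ++ Y ++ b :: post) =
      pre' ++ parts mu1 (s ++ pw (Y ++ [c]) j ++ Y ++ t) ++ post' := by
    intro j
    rw [List.append_assoc _ (pw _ _) Y, key, List.append_assoc _ (pw _ _) Y]
  rw [key'] at hV
  rw [key', key']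
  obtain ⟨k, rfl⟩ : ∃ j, k = j + 1 := ⟨k - 1, by omega⟩
  rcases split_first mu1 Y with hY | ⟨p, g, M, hg, hp, rfl⟩
  · by_cases hc1 : c = 1
    · subst hc1
      rw [show k + 1 + m = k + m + 1 by ring, parts_marker_free mu1 _ _ _ _ rfl,
        parts_marker_free mu1 _ _ _ _ rfl]
      rw [parts_marker_free mu1 _ _ _ _ rfl] at hV
      rcases eq_or_ne Y [] with rfl | hY0
      · left; simp
      rw [parts_free mu1 Y hY hY0, parts_free mu1 (s ++ Y) (free_app hs hY) (by simp [hY0]),
        parts_free mu1 (Y ++ t) (free_app hY ht) (by simp [hY0])] at hV ⊢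
      rcases eq_or_ne s [] with rfl | hs0
      · refine Or.inr (Or.inr ⟨pre', (Y ++ t) :: post', [], Y, ?_, ?_⟩)
        · rw [pw_succ]; simp
        · rw [show k + 1 + m = k + m + 1 by ring, pw_succ]; simp
      rcases eq_or_ne t [] with rfl | ht0
      · refine Or.inr (Or.inr ⟨pre' ++ [s ++ Y], post', [], Y, ?_, ?_⟩)
        · rw [pw_succ']; simp
        · rw [show k + 1 + m = k + m + 1 by ring, pw_succ']; simp
      exfalso
      have v1 := hV (s ++ Y) (by simp)
      have v2 := hV (Y ++ t) (by simp)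
      rcases hab hs0 ht0 rfl with h | h
      · exact clashL s Y t hs0 hY0 h v1 v2
      · exact clashR s Y t ht0 hY0 h v1 v2
    · have hfr : ∀ j, ∀ x ∈ s ++ pw (Y ++ [c]) j ++ Y ++ t, mu1 x = false := fun j =>
        free_app (free_app (free_app hs (free_pw j (free_app hY (by
          intro x hx; rw [List.mem_singleton.1 hx]; simp [mu1, hc1])))) hY) ht
      have hne : ∀ j, s ++ pw (Y ++ [c]) (j + 1) ++ Y ++ t ≠ [] := by
        intro j; rw [pw_succ]; simp
      rw [show k + 1 + m = k + m + 1 by ring, parts_free mu1 _ (hfr _) (hne _),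
        parts_free mu1 _ (hfr _) (hne _)]
      refine Or.inr (Or.inl ⟨pre', post', _, _, Or.inr ⟨s, t, Y, c, by omega, rfl, rfl⟩, by simp, ?_⟩)
      rw [show k + 1 + m = k + m + 1 by ring]; simp
  · obtain ⟨preM, q, hq, -, hM⟩ := ctx_left mu1 M
    rw [parts_np mu1 p M q g c hg preM hM] at hV
    rw [parts_np mu1 p M q g c hg preM hM, parts_np mu1 p M q g c hg preM hM]
    by_cases hc1 : c = 1
    · subst hc1
      rw [parts_append mu1 _ _ _ rfl] at hV ⊢
      rcases eq_or_ne p [] with rfl | hp0
      · rcases eq_or_ne q [] with rfl | hq0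
        · have := np_full (k + 1) m (pre' ++ parts mu1 s) preM (parts mu1 t ++ post')
          simp only [List.append_nil, parts_nil, List.nil_append, List.append_assoc] at this ⊢
          rcases this with h | h
          · exact Or.inl h
          · exact Or.inr (Or.inr h)
        · rw [parts_free mu1 q hq hq0]
          exact Or.inr (Or.inr ⟨pre' ++ parts mu1 s, parts mu1 (q ++ t) ++ post', preM, q,
            by simp, by simp⟩)
      rw [parts_free mu1 p hp hp0] at hV ⊢
      rcases eq_or_ne q [] with rfl | hq0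
      · exact Or.inr (Or.inr ⟨pre' ++ parts mu1 (s ++ p), parts mu1 t ++ post', preM, p,
            by simp, by simp⟩)
      rw [parts_free mu1 q hq hq0, parts_free mu1 (s ++ p) (free_app hs hp) (by simp [hp0]),
        parts_free mu1 (q ++ t) (free_app hq ht) (by simp [hq0])] at hV ⊢
      rcases eq_or_ne s [] with rfl | hs0
      · have e : ∀ j, [[] ++ p] ++ pw (preM ++ ([q] ++ [p])) j =
            pw (p :: preM ++ [q]) j ++ [p] := by
          intro j
          have := pw_conj [p] (preM ++ [q]) j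
          simp only [List.nil_append, List.append_assoc, List.cons_append] at this ⊢
          exact this.symm
        refine Or.inr (Or.inr ⟨pre', (q ++ t) :: post', p :: preM, q, ?_, ?_⟩)
        · rw [e]; simp
        · rw [e]; simp
      rcases eq_or_ne t [] with rfl | ht0
      · exact Or.inr (Or.inr ⟨pre' ++ [s ++ p], post', preM ++ [q], p, by simp, by simp⟩)
      exfalso
      have v1 := hV (s ++ p) (by simp)
      have v2 := hV (q ++ t) (by simp)
      have v3 := hV p (by rw [pw_succ]; simp)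
      have v4 := hV q (by rw [pw_succ]; simp)
      rcases hab hs0 ht0 rfl with h | h
      · exact clashL s p [] hs0 hp0 h v1 (by simpa using v3)
      · exact clashR [] q t ht0 hq0 h (by simpa using v4) v2
    · rw [parts_free mu1 (q ++ c :: p) (free_app hq (free_cons (by simp [mu1, hc1]) hp)) (by simp)]
      exact Or.inr (Or.inr ⟨pre' ++ parts mu1 (s ++ p), parts mu1 (q ++ t) ++ post', preM,
        q ++ c :: p, by simp, by simp⟩)

/-! Layer 2: regions -/

def mu2 (B : List ℕ) : Bool := fst B == 0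
def reg (C : List (List ℕ)) : List (List (List ℕ)) := parts mu2 C

def RStep (k m : ℕ) (R R' : List (List ℕ)) : Prop :=
  (∃ P Q B B', BStep k m B B' ∧ R = P ++ B :: Q ∧ R' = P ++ B' :: Q) ∨ NP k m R R'

def Good (C : List (List ℕ)) : Prop :=
  (∀ B ∈ C, Val B) ∧ (∃ B C', C = B :: C' ∧ mu2 B = false) ∧ (∃ B C', C = C' ++ [B] ∧ mu2 B = false)

lemma mu2_step {k m : ℕ} (hk : 1 ≤ k) {B B' : List ℕ} (h : BStep k m B B') (hB : mu2 B = false) :
    mu2 B' = false := by
  have := h.fst_le hk
  simp only [mu2, beq_eq_false_iff_ne] at hB ⊢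
  omega

lemma mu2_zr {B : List ℕ} (hB : Zr B) : mu2 B = true := by
  rcases B with _ | ⟨x, l⟩
  · rfl
  · have := hB x (by simp)
    simp [mu2, fst, this]

lemma CStep.good {k m : ℕ} (hk : 1 ≤ k) {C C' : List (List ℕ)} (h : CStep k m C C') (hC : Good C) :
    Good C' := by
  rcases h with rfl | ⟨P, Q, B, B', hB, rfl, rfl⟩ | h
  · exact hC
  · obtain ⟨h1, ⟨B1, C1, e1, m1⟩, ⟨B2, C2, e2, m2⟩⟩ := hC
    refine ⟨?_, ?_, ?_⟩
    · intro X hX
      simp only [List.mem_append, List.mem_cons] at hX
      rcases hX with hX | rfl | hX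
      · exact h1 X (by simp [hX])
      · rcases h1 B (by simp) with h | h
        · exact Or.inl (hB.zr hk h)
        · exact Or.inr (hB.wf hk h)
      · exact h1 X (by simp [hX])
    · rcases P with _ | ⟨X, P⟩
      · obtain ⟨rfl, rfl⟩ := List.cons.inj e1
        exact ⟨B', Q, rfl, mu2_step hk hB m1⟩
      · obtain ⟨rfl, -⟩ := List.cons.inj e1
        exact ⟨X, _, rfl, m1⟩
    · rcases List.eq_nil_or_concat Q with rfl | ⟨Q', X, rfl⟩
      · have := List.append_inj_right' e2 rfl
        obtain rfl : B = B2 := by simpa using this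
        exact ⟨B', P, rfl, mu2_step hk hB m2⟩
      · rw [List.concat_eq_append, ← List.cons_append, ← List.append_assoc] at e2
        have := List.append_inj_right' e2 rfl
        obtain rfl : X = B2 := by simpa using this
        exact ⟨X, P ++ B' :: Q', by simp, m2⟩
  · obtain ⟨h1, ⟨B1, C1, e1, m1⟩, ⟨B2, C2, e2, m2⟩⟩ := hC
    refine ⟨fun X hX => h1 X (h.mem hk X hX), ?_, ?_⟩
    · obtain ⟨P, Q, Y, G, rfl, rfl⟩ := h
      obtain ⟨k, rfl⟩ : ∃ j, k = j + 1 := ⟨k - 1, by omega⟩
      rw [show k + 1 + m = k + m + 1 by ring, pw_succ]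
      rw [pw_succ] at e1
      obtain ⟨X, l, e⟩ := List.exists_cons_of_ne_nil (show P ++ (Y ++ [G]) ≠ [] by simp)
      rw [← List.append_assoc, e] at e1 ⊢
      obtain ⟨rfl, -⟩ := List.cons.inj e1
      exact ⟨X, _, rfl, m1⟩
    · obtain ⟨P, Q, Y, G, rfl, rfl⟩ := h
      obtain ⟨k, rfl⟩ : ∃ j, k = j + 1 := ⟨k - 1, by omega⟩
      rw [show k + 1 + m = k + m + 1 by ring, pw_succ']
      rw [pw_succ'] at e2
      rcases List.eq_nil_or_concat ((Y ++ [G]) ++ Y ++ Q) with e | ⟨l, X, e⟩
      · simp at e
      rw [List.concat_eq_append] at e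
      have e3 : ∀ j, P ++ (pw (Y ++ [G]) j ++ (Y ++ [G])) ++ Y ++ Q = (P ++ pw (Y ++ [G]) j ++ l) ++ [X] := by
        intro j
        rw [List.append_assoc _ l, ← e]; simp
      rw [e3] at e2 ⊢
      have := List.append_inj_right' e2 rfl
      obtain rfl : X = B2 := by simpa using this
      exact ⟨X, _, rfl, m2⟩

def F2 (k m : ℕ) (RL RL' : List (List (List ℕ))) : Prop :=
  List.Forall₂ (fun X X' => X' = X ∨ RStep k m X X') RL RL'

lemma F2.refl (k m : ℕ) (RL : List (List (List ℕ))) : F2 k m RL RL :=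
  List.forall₂_same.2 fun _ _ => Or.inl rfl

lemma F2.one (k m : ℕ) (pre post : List (List (List ℕ))) (X X' : List (List ℕ))
    (h : RStep k m X X') : F2 k m (pre ++ [X] ++ post) (pre ++ [X'] ++ post) :=
  List.rel_append (List.rel_append (F2.refl k m pre) (List.Forall₂.cons (Or.inr h) List.Forall₂.nil))
    (F2.refl k m post)

lemma cstep_reg (k m : ℕ) (C C' : List (List ℕ)) (hC : Good C)
    (h : CStep (k + 1) m C C') : F2 (k + 1) m (reg C) (reg C') ∨
      (∃ pre post s W t, reg C = pre ++ ([s ++ W] ++ pw [W] k ++ [W ++ t]) ++ post ∧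
        reg C' = pre ++ ([s ++ W] ++ pw [W] (k + m) ++ [W ++ t]) ++ post) ∨
      (k + 3 ≤ (reg C).length ∧ (reg C).length + m ≤ (reg C').length) := by
  unfold reg
  have hk : 1 ≤ k + 1 := by omega
  rcases h with rfl | ⟨P, Q, B, B', hB, rfl, rfl⟩ | ⟨P, Q, Y, G, rfl, rfl⟩
  · exact Or.inl (F2.refl _ _ _)
  · left
    rcases hC.1 B (by simp) with hz | hw
    · rw [parts_append mu2 _ _ _ (mu2_zr hz), parts_append mu2 _ _ _ (mu2_zr (hB.zr hk hz))]
      exact F2.refl _ _ _
    · have hm : mu2 B = false := by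
        have := hw.1
        simp only [mu2, beq_eq_false_iff_ne]; omega
      obtain ⟨pre', s, hs, -, hpre⟩ := ctx_left mu2 P
      obtain ⟨post', t, ht, -, hpost⟩ := ctx_right mu2 Q
      have key : ∀ X, mu2 X = false → parts mu2 (P ++ X :: Q) = pre' ++ [s ++ X :: t] ++ post' := by
        intro X hX
        have e : s ++ X :: Q = (s ++ [X]) ++ Q := by simp
        rw [hpre, e, hpost, parts_free mu2 _ (free_app (free_app hs (by
          intro x hx; rw [List.mem_singleton.1 hx]; exact hX)) ht) (by simp)]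
        simp
      rw [key B hm, key B' (mu2_step hk hB hm)]
      exact F2.one _ _ _ _ _ _ (Or.inl ⟨s, t, B, B', hB, rfl, rfl⟩)
  · rcases split_first mu2 Y with hY | ⟨p, g, M, hg, hp, rfl⟩
    · obtain ⟨pre', s, hs, -, hpre⟩ := ctx_left mu2 P
      obtain ⟨post', t, ht, -, hpost⟩ := ctx_right mu2 Q
      have key : ∀ j, parts mu2 (P ++ pw (Y ++ [G]) j ++ Y ++ Q) =
          pre' ++ parts mu2 (s ++ pw (Y ++ [G]) j ++ Y ++ t) ++ post' := by
        intro j
        rw [List.append_assoc, List.append_assoc, hpre, ← List.append_assoc, ← List.append_assoc,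
          hpost]; simp
      rw [key, key]
      by_cases hG : mu2 G = true
      · rw [show k + 1 + m = k + m + 1 by ring, parts_marker_free mu2 _ _ _ _ hG,
          parts_marker_free mu2 _ _ _ _ hG]
        rcases eq_or_ne Y [] with rfl | hY0
        · left; simpa using F2.refl _ _ _
        rw [parts_free mu2 Y hY hY0, parts_free mu2 (s ++ Y) (free_app hs hY) (by simp [hY0]),
          parts_free mu2 (Y ++ t) (free_app hY ht) (by simp [hY0])]
        exact Or.inr (Or.inl ⟨pre', post', s, Y, t, rfl, rfl⟩)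
      · have hfr : ∀ j, ∀ x ∈ s ++ pw (Y ++ [G]) j ++ Y ++ t, mu2 x = false := fun j =>
          free_app (free_app (free_app hs (free_pw j (free_app hY (by
            intro x hx; rw [List.mem_singleton.1 hx]; simpa using hG)))) hY) ht
        have hne : ∀ j, s ++ pw (Y ++ [G]) (j + 1) ++ Y ++ t ≠ [] := by
          intro j; rw [pw_succ]; simp
        rw [parts_free mu2 _ (hfr _) (hne _), show k + 1 + m = k + m + 1 by ring,
          parts_free mu2 _ (hfr _) (hne _)]
        left
        exact F2.one _ _ _ _ _ _ (Or.inr ⟨s, t, Y, G, rfl, by rw [show k + 1 + m = k + m + 1 by ring]⟩)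
    · obtain ⟨preM, q, hq, hq', hM⟩ := ctx_left mu2 M
      obtain ⟨-, ⟨B1, C1, e1, m1⟩, ⟨B2, C2, e2, m2⟩⟩ := hC
      have n1 : parts mu2 (P ++ p) ≠ [] := by
        rcases hPp : P ++ p with _ | ⟨X, l⟩
        · exfalso
          obtain ⟨rfl, rfl⟩ := List.append_eq_nil_iff.1 hPp
          rw [pw_succ] at e1
          obtain ⟨rfl, -⟩ := List.cons.inj e1
          rw [hg] at m1; exact absurd m1 (by simp)
        · have e3 : P ++ pw (p ++ g :: M ++ [G]) (k + 1) ++ (p ++ g :: M) ++ Q =
              (P ++ p) ++ (g :: M ++ [G] ++ pw (p ++ g :: M ++ [G]) k ++ (p ++ g :: M) ++ Q) := by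
            rw [pw_succ]; simp
          rw [e3, hPp] at e1
          obtain ⟨rfl, -⟩ := List.cons.inj e1
          exact parts_ne_nil mu2 X l m1
      have n2 : parts mu2 (q ++ Q) ≠ [] := by
        have e4 : ∃ u0 g', mu2 g' = true ∧ g :: M = u0 ++ g' :: q := by
          rcases hq' with rfl | ⟨u0, g', h1, rfl⟩
          · exact ⟨[], g, hg, rfl⟩
          · exact ⟨g :: u0, g', h1, rfl⟩
        obtain ⟨u0, g', hg', e4⟩ := e4
        have e3 : P ++ pw (p ++ g :: M ++ [G]) (k + 1) ++ (p ++ g :: M) ++ Q =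
            (P ++ pw (p ++ g :: M ++ [G]) (k + 1) ++ p ++ u0 ++ [g']) ++ (q ++ Q) := by
          generalize pw (p ++ g :: M ++ [G]) (k + 1) = X
          rw [e4]; simp
        rw [e3] at e2
        rcases List.eq_nil_or_concat (q ++ Q) with h | ⟨l, X, h⟩
        · exfalso
          rw [h, List.append_nil] at e2
          have := List.append_inj_right' e2 rfl
          obtain rfl : g' = B2 := by simpa using this
          rw [hg'] at m2; exact absurd m2 (by simp)
        · rw [List.concat_eq_append] at h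
          rw [h, ← List.append_assoc] at e2
          have := List.append_inj_right' e2 rfl
          obtain rfl : X = B2 := by simpa using this
          rw [h]
          exact parts_ne_nil' mu2 X l m2
      rw [parts_np mu2 p M q g G hg preM hM, parts_np mu2 p M q g G hg preM hM]
      rcases eq_or_ne (preM ++ parts mu2 (q ++ G :: p)) [] with h | h
      · left; rw [h]; simpa using F2.refl _ _ _
      · right; right
        have l1 := List.length_pos_iff.2 n1
        have l2 := List.length_pos_iff.2 n2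
        have l3 := List.length_pos_iff.2 h
        simp only [List.length_append (as := _ ++ pw _ _), List.length_append (bs := pw _ _),
          List.length_append (bs := parts mu2 (q ++ Q)), length_pw]
        generalize (preM ++ parts mu2 (q ++ G :: p)).length = h0 at *
        constructor <;> nlinarith

end Pool.Agent.H739Z.Rw
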