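import Pool.Agent.H739Z.Rw.Basic

set_option autoImplicit false

namespace Pool.Agent.H739Z.Rw

open Relation

variable {A : Type}

/-- period `p` -/
def Per (G : List A) (p : ℕ) : Prop := ∀ j, j + p < G.length → G[j + p]? = G[j]?

lemma per_pw (x : List A) (k : ℕ) : Per (pw x k) x.length := by
  intro j hj
  rcases k with _ | k
  · simp at hj
  · have h1 : (pw x (k + 1))[j + x.length]? = (pw x k)[j]? := by
      rw [pw_succ, List.getElem?_append_right (by omega)]; congr 1; omega
    have h2 : (pw x (k + 1))[j]? = (pw x k)[j]? := by
      rw [pw_succ', List.getElem?_append_left]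
      rw [pw_succ, List.length_append] at hj; omega
    rw [h1, h2]

lemma Per.mid {s G t : List A} {p : ℕ} (h : Per (s ++ G ++ t) p) : Per G p := by
  intro j hj
  have hg : ∀ i < G.length, (s ++ G ++ t)[s.length + i]? = G[i]? := by
    intro i hi
    rw [List.append_assoc, List.getElem?_append_right (by omega),
      show s.length + i - s.length = i by omega, List.getElem?_append_left hi]
  have := h (s.length + j) (by simp; omega)
  rw [add_assoc, hg _ hj, hg _ (by omega)] at this
  exact this

/-- overlap-free -/
def OF (F : List A) : Prop :=
  ∀ s G t : List A, ∀ p, 1 ≤ p → F = s ++ G ++ t → Per G p → G.length ≤ 2 * p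

lemma OF.mid {s F t : List A} (h : OF (s ++ F ++ t)) : OF F := by
  intro s' G t' p hp e hG
  exact h (s ++ s') G (t' ++ t) p hp (by rw [e]; simp) hG

lemma of_tm (a b : A) (hab : a ≠ b) (N : ℕ) :
    OF ((List.range N).map fun i => if tm i then a else b) := by
  intro s G t p hp e hG
  by_contra hlen
  have hl := congrArg List.length e
  simp only [List.length_map, List.length_range, List.length_append] at hl
  have hget : ∀ j < G.length, G[j]? = some (if tm (s.length + j) then a else b) := by
    intro j hj
    have e1 : ((List.range N).map fun i => if tm i then a else b)[s.length + j]? =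
        some (if tm (s.length + j) then a else b) := by
      rw [List.getElem?_map, List.getElem?_range (by omega)]; rfl
    rw [e, List.append_assoc, List.getElem?_append_right (by omega),
      List.getElem?_append_left (by omega), show s.length + j - s.length = j by omega] at e1
    exact e1
  refine tm_overlap_free p hp s.length fun j hj => ?_
  have h1 := hG j (by omega)
  rw [hget _ (by omega), hget _ (by omega), ← add_assoc] at h1
  have h2 := Option.some.inj h1
  cases h3 : tm (s.length + j + p) <;> cases h4 : tm (s.length + j) <;> simp [h3, h4] at h2 ⊢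
  · exact hab h2.symm
  · exact hab h2

lemma garbage (m : ℕ) (hm : 2 ≤ m) (w y : List A) (h : Der 1 m w y) :
    ∀ J F V : List A, y = J ++ F ++ V → OF F →
      F.length ≤ 2 ^ (J.length + V.length) * (w.length + 2) := by
  induction h with
  | refl =>
    intro J F V e _
    have hl := congrArg List.length e
    simp only [List.length_append] at hl
    have : 1 ≤ 2 ^ (J.length + V.length) := Nat.one_le_two_pow
    nlinarith
  | tail _ h2 ih =>
    intro J F V e hF
    obtain ⟨p, s, x, rfl, rfl⟩ := h2
    rw [pw_one] at ih
    rcases eq_or_ne x [] with rfl | hx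
    · exact ih J F V (by rw [← e]; simp) hF
    have hx1 : 1 ≤ x.length := List.length_pos_iff.2 hx
    have hX3 : 3 * x.length ≤ (pw x (1 + m)).length := by
      rw [length_pw]; exact Nat.mul_le_mul_right _ (by omega)
    have hper := per_pw x (1 + m)
    have hX1 : pw x (1 + m) = x ++ pw x m := by rw [add_comm, pw_succ]
    have hX2 : pw x (1 + m) = pw x m ++ x := by rw [add_comm, pw_succ']
    generalize pw x (1 + m) = X at *
    have mono : ∀ (r r' c : ℕ), r' < r → c ≤ 2 * (2 ^ r' * (w.length + 2)) →
        c ≤ 2 ^ r * (w.length + 2) := by
      intro r r' c hr hc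
      have : 2 ^ (r' + 1) ≤ 2 ^ r := Nat.pow_le_pow_right (by omega) hr
      calc c ≤ 2 ^ (r' + 1) * (w.length + 2) := by rw [pow_succ]; linarith
        _ ≤ _ := Nat.mul_le_mul_right _ this
    have hl := congrArg List.length e
    simp only [List.length_append] at hl
    rw [List.append_assoc, List.append_assoc] at e
    rcases List.append_eq_append_iff.1 e with ⟨J', rfl, e1⟩ | ⟨p', rfl, e1⟩
    · -- J = p ++ J'
      rw [← List.append_assoc] at e1
      rcases List.append_eq_append_iff.1 e1 with ⟨s', e2, rfl⟩ | ⟨V', e2, rfl⟩
      · -- J' ++ F = X ++ s'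
        rcases List.append_eq_append_iff.1 e2 with ⟨F1, e3, rfl⟩ | ⟨J'', rfl, e3⟩
        · -- X = J' ++ F1, F = F1 ++ s'
          have hb : F1.length ≤ 2 * x.length :=
            hF [] F1 s' _ hx1 (by simp) (Per.mid (s := J') (t := []) (by rw [List.append_nil, ← e3]; exact hper))
          have hl3 := congrArg List.length e3
          simp only [List.length_append] at hl3
          rw [hX2] at e3
          rcases List.append_eq_append_iff.1 e3 with ⟨c, e4, e5⟩ | ⟨c, e4, e5⟩
          · -- J' = pw x m ++ c, x = c ++ F1
            have := ih (p ++ c) (F1 ++ s') V (by rw [e5]; simp) hF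
            have h4 := congrArg List.length e4
            have h5 := congrArg List.length e5
            simp only [List.length_append, length_pw] at h4 h5 this ⊢
            refine mono _ (p.length + c.length + V.length) _ ?_ (by omega)
            nlinarith
          · -- F1 = c ++ x
            have := ih p (x ++ s') V (by simp) (OF.mid (s := c) (t := []) (by
              rw [List.append_nil, ← List.append_assoc, ← e5]; exact hF))
            simp only [List.length_append] at this ⊢
            refine mono _ (p.length + V.length) _ (by omega) (by omega)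
        · -- J' = X ++ J'', s' = J'' ++ F
          have := ih (p ++ x ++ J'') F V (by rw [e3]; simp) hF
          simp only [List.length_append] at this ⊢
          refine mono _ (p.length + x.length + J''.length + V.length) _ (by omega) (by omega)
      · -- X = J' ++ F ++ V'
        have hb : F.length ≤ 2 * x.length :=
          hF [] F [] _ hx1 (by simp) (Per.mid (s := J') (t := V') (by rw [← e2]; exact hper))
        have hl3 := congrArg List.length e2
        simp only [List.length_append] at hl3 ⊢
        have h2 : p.length + J'.length + (V'.length + s.length) <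
            2 ^ (p.length + J'.length + (V'.length + s.length)) := Nat.lt_two_pow_self
        nlinarith
    · -- p = J ++ p', F ++ V = p' ++ (X ++ s)
      rw [← List.append_assoc] at e1
      rcases List.append_eq_append_iff.1 e1 with ⟨V', e2, rfl⟩ | ⟨s', e2, rfl⟩
      · -- p' ++ X = F ++ V'
        rcases List.append_eq_append_iff.1 e2 with ⟨F2, rfl, e3⟩ | ⟨r, rfl, e3⟩
        · -- F = p' ++ F2, X = F2 ++ V'
          have hb : F2.length ≤ 2 * x.length :=
            hF p' F2 [] _ hx1 (by simp) (Per.mid (s := []) (t := V') (by rw [List.nil_append, ← e3]; exact hper))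
          have hl3 := congrArg List.length e3
          simp only [List.length_append] at hl3
          rw [hX1] at e3
          rcases List.append_eq_append_iff.1 e3 with ⟨c, e4, e5⟩ | ⟨c, e4, e5⟩
          · -- F2 = x ++ c
            have := ih J (p' ++ x) s (by simp) (OF.mid (s := []) (t := c) (by
              rw [List.nil_append, List.append_assoc, ← e4]; exact hF))
            simp only [List.length_append] at this ⊢
            refine mono _ (J.length + s.length) _ (by omega) (by omega)
          · -- x = F2 ++ c, V' = c ++ pw x m
            have := ih J (p' ++ F2) (c ++ s) (by rw [e4]; simp) hF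
            have h4 := congrArg List.length e4
            have h5 := congrArg List.length e5
            simp only [List.length_append, length_pw] at h4 h5 this ⊢
            refine mono _ (J.length + (c.length + s.length)) _ ?_ (by omega)
            nlinarith
        · -- p' = F ++ r, V' = r ++ X
          have := ih J F (r ++ x ++ s) (by simp) hF
          have h4 := congrArg List.length e3
          simp only [List.length_append] at h4 this ⊢
          refine mono _ (J.length + (r.length + x.length + s.length)) _ (by omega) (by omega)
      · -- F = p' ++ X ++ s'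
        have hb := hF p' X s' _ hx1 e2 hper
        omega

lemma extend (m : ℕ) (hm : 1 ≤ m) (w t : List A) (ht : ∀ c ∈ t, c ∈ w) :
    ∃ v, Der 1 m w (w ++ t ++ v) := by
  induction t using List.reverseRecOn with
  | nil => exact ⟨[], by simpa using ReflTransGen.refl⟩
  | append_singleton t c ih =>
    obtain ⟨v, hv⟩ := ih (fun d hd => ht d (by simp [hd]))
    obtain ⟨p, q, hpq⟩ := List.append_of_mem (ht c (by simp))
    obtain ⟨m, rfl⟩ : ∃ k, m = k + 1 := ⟨m - 1, by omega⟩
    refine ⟨q ++ t ++ pw (c :: q ++ t) m ++ v, hv.tail ⟨p, v, c :: q ++ t, ?_, ?_⟩⟩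
    · rw [pw_one, hpq]; simp
    · rw [show 1 + (m + 1) = m + 1 + 1 by ring, pw_succ, pw_succ]
      nth_rewrite 1 [hpq]
      simp

theorem n1_not_regular (m : ℕ) (hm : 2 ≤ m) (w : List A) (a b : A) (hab : a ≠ b)
    (ha : a ∈ w) (hb : b ∈ w) : ¬ (Lang 1 m w).IsRegular := by
  refine not_regular_of _ (fun N => w ++ (List.range N).map fun i => if tm i then a else b)
    (fun N => ?_) (fun v => ⟨2 ^ (w.length + v.length) * (w.length + 2) + 1, fun N hN h => ?_⟩)
  · refine extend m (by omega) w _ fun c hc => ?_
    obtain ⟨i, _, rfl⟩ := List.mem_map.1 hc
    split_ifs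
    · exact ha
    · exact hb
  · have := garbage m hm w _ h w _ v rfl (of_tm a b hab N)
    simp only [List.length_map, List.length_range] at this
    omega

/-! unary words -/

lemma der_unary (n m : ℕ) (hn : 1 ≤ n) (a : A) (k : ℕ) (y : List A) :
    Der n m (List.replicate k a) y ↔
      ∃ j, y = List.replicate j a ∧ (j = k ∨ (n ≤ k ∧ ∃ r, j = k + m * r)) := by
  constructor
  · intro h
    induction h with
    | refl => exact ⟨k, rfl, Or.inl rfl⟩
    | tail _ h2 ih =>
      obtain ⟨j, hj, hjk⟩ := ih
      obtain ⟨u, v, x, rfl, rfl⟩ := h2
      have hall : ∀ c ∈ u ++ pw x n ++ v, c = a := by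
        rw [hj]; intro c hc; exact List.eq_of_mem_replicate hc
      have hl := congrArg List.length hj
      simp only [List.length_append, length_pw, List.length_replicate] at hl
      refine ⟨j + m * x.length, ?_, ?_⟩
      · apply List.eq_replicate_iff.2
        refine ⟨?_, fun c hc => ?_⟩
        · simp only [List.length_append, length_pw]; rw [← hl]; ring
        · simp only [List.mem_append] at hc hall
          rcases hc with (hc | hc) | hc
          · exact hall c (Or.inl (Or.inl hc))
          · exact hall c (Or.inl (Or.inr (mem_pw_of hn (mem_pw hc))))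
          · exact hall c (Or.inr hc)
      · rcases Nat.eq_zero_or_pos x.length with h0 | h0
        · rw [h0]; simpa using hjk
        · right
          rcases hjk with rfl | ⟨h1, r, rfl⟩
          · exact ⟨by nlinarith, _, rfl⟩
          · exact ⟨h1, r + x.length, by ring⟩
  · rintro ⟨j, rfl, rfl | ⟨h1, r, rfl⟩⟩
    · exact ReflTransGen.refl
    · have := der_pw (n := n) (m := m) [a] k r h1
      rwa [pw_single, pw_single] at this

theorem unary_regular (n m : ℕ) (hn : 1 ≤ n) (hm : 1 ≤ m) (a : A) (k : ℕ) :
    (Lang n m (List.replicate k a)).IsRegular := by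
  rw [Language.isRegular_iff_finite_range_leftQuotient]
  set L := Lang n m (List.replicate k a) with hL
  have hmem : ∀ y, y ∈ L ↔ ∃ j, y = List.replicate j a ∧ (j = k ∨ (n ≤ k ∧ ∃ r, j = k + m * r)) :=
    fun y => der_unary n m hn a k y
  have hmem2 : ∀ i y, y ∈ L.leftQuotient (List.replicate i a) ↔
      ∃ j, y = List.replicate j a ∧ (i + j = k ∨ (n ≤ k ∧ ∃ r, i + j = k + m * r)) := by
    intro i y
    rw [Language.mem_leftQuotient, hmem]
    constructor
    · rintro ⟨j, e, hj⟩
      have hl := congrArg List.length e
      simp only [List.length_append, List.length_replicate] at hl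
      refine ⟨y.length, ?_, by rw [hl]; exact hj⟩
      apply List.eq_replicate_iff.2
      exact ⟨rfl, fun c hc => List.eq_of_mem_replicate (e ▸ List.mem_append_right _ hc)⟩
    · rintro ⟨j, rfl, hj⟩
      exact ⟨i + j, by rw [List.replicate_add], hj⟩
  have hper : ∀ i, ∃ i' ≤ k + m, L.leftQuotient (List.replicate i a) =
      L.leftQuotient (List.replicate i' a) := by
    intro i
    induction i using Nat.strong_induction_on with
    | _ i ih =>
      by_cases hi : i ≤ k + m
      · exact ⟨i, hi, rfl⟩
      · obtain ⟨i', h1, h2⟩ := ih (i - m) (by omega)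
        refine ⟨i', h1, Eq.trans ?_ h2⟩
        ext y
        rw [hmem2, hmem2]
        constructor
        · rintro ⟨j, e, hj | ⟨h3, r, hr⟩⟩
          · omega
          · rcases r with _ | r
            · omega
            · exact ⟨j, e, Or.inr ⟨h3, r, by rw [Nat.mul_succ] at hr; omega⟩⟩
        · rintro ⟨j, e, hj | ⟨h3, r, hr⟩⟩
          · omega
          · exact ⟨j, e, Or.inr ⟨h3, r + 1, by rw [Nat.mul_succ]; omega⟩⟩
  refine Set.Finite.subset (Set.Finite.insert (0 : Language A)
    ((Set.finite_Iic (k + m)).image fun i => L.leftQuotient (List.replicate i a))) ?_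
  rintro _ ⟨x, rfl⟩
  by_cases hx : ∀ c ∈ x, c = a
  · right
    obtain ⟨i', h1, h2⟩ := hper x.length
    refine ⟨i', h1, ?_⟩
    have : x = List.replicate x.length a := List.eq_replicate_iff.2 ⟨rfl, hx⟩
    rw [this]; exact h2.symm
  · left
    ext y
    rw [Language.mem_leftQuotient, hmem]
    constructor
    · rintro ⟨j, e, _⟩
      exact absurd (fun c hc => List.eq_of_mem_replicate (e ▸ List.mem_append_left _ hc)) hx
    · intro h; exact absurd h (Language.notMem_zero y)

theorem const_regular (n m : ℕ) (hn : 1 ≤ n) (hm : 1 ≤ m) (w : List A)
    (hw : ∀ x ∈ w, ∀ y ∈ w, x = y) : (Lang n m w).IsRegular := by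
  rcases w with _ | ⟨a, w⟩
  · have : Lang n m ([] : List A) = {[]} := by
      ext y
      constructor
      · intro h
        have h' : Der n m [] y := h
        induction h' with
        | refl => rfl
        | tail h1 h2 ih =>
          have hb := ih h1
          obtain ⟨u, v, x, rfl, rfl⟩ := h2
          have hb' : u ++ pw x n ++ v = [] := hb
          have hl := congrArg List.length hb'
          simp only [List.length_append, length_pw, List.length_nil] at hl
          have hx : x = [] := by
            apply List.length_eq_zero_iff.1
            by_contra h0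
            have : 1 ≤ n * x.length := Nat.mul_pos hn (Nat.pos_of_ne_zero h0)
            omega
          subst hx
          show u ++ pw [] (n + m) ++ v = []
          simpa using hb'
      · intro h
        have h' : y = [] := h
        subst h'
        exact ReflTransGen.refl
    rw [this, Language.isRegular_iff_finite_range_leftQuotient]
    refine Set.Finite.subset (Set.Finite.insert (0 : Language A) (Set.finite_singleton {[]})) ?_
    rintro _ ⟨x, rfl⟩
    rcases x with _ | ⟨c, x⟩
    · right; rfl
    · left
      ext y
      rw [Language.mem_leftQuotient]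
      constructor
      · intro h
        have h' : c :: x ++ y = [] := h
        simp at h'
      · intro h; exact absurd h (Language.notMem_zero y)
  · have : a :: w = List.replicate (w.length + 1) a :=
      List.eq_replicate_iff.2 ⟨rfl, fun c hc => hw c hc a (by simp)⟩
    rw [this]
    exact unary_regular n m hn hm a _

end Pool.Agent.H739Z.Rw
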