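import Pool.Agent.H739Z.Rw.Layers
import Pool.Agent.H739Z.Rw.N1

set_option autoImplicit false

namespace Pool.Agent.H739Z.Rw

open Relation

def Kp (I : ℕ) (B : List ℕ) : Prop := I ≤ fst B + lst B

lemma RStep.all {k m : ℕ} (hk : 1 ≤ k) {R R' : List (List ℕ)} (h : RStep k m R R')
    (P : List ℕ → Prop) (hP : ∀ B B', BStep k m B B' → P B → P B') (hR : ∀ B ∈ R, P B) :
    ∀ B ∈ R', P B := by
  rcases h with ⟨P0, Q, B, B', hB, rfl, rfl⟩ | h
  · intro X hX
    simp only [List.mem_append, List.mem_cons] at hX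
    rcases hX with hX | rfl | hX
    · exact hR X (by simp [hX])
    · exact hP B X hB (hR B (by simp))
    · exact hR X (by simp [hX])
  · exact fun X hX => hR X (h.mem hk X hX)

lemma RStep.len {k m : ℕ} {R R' : List (List ℕ)} (h : RStep k m R R') : R.length ≤ R'.length := by
  rcases h with ⟨P0, Q, B, B', hB, rfl, rfl⟩ | ⟨P, Q, Y, G, rfl, rfl⟩
  · simp
  · simp only [List.length_append, length_pw]
    nlinarith [Nat.zero_le (m * (Y.length + [G].length))]

lemma kp_step {k m I : ℕ} (hk : 1 ≤ k) (B B' : List ℕ) (h : BStep k m B B') (hB : Kp I B) :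
    Kp I B' := by
  have h1 := h.fst_le hk
  have h2 := h.lst_le hk
  unfold Kp at *
  omega

lemma desc_types {k m I : ℕ} (hk : 1 ≤ k) (hm : 1 ≤ m) {W F : List (List ℕ)}
    (h : ReflTransGen (RStep k m) W F) (hF : ∀ B ∈ F, fst B + lst B ≤ I)
    (hsq : ∀ s Z t, F.map fst = s ++ (Z ++ Z) ++ t → Z = []) :
    (∀ B ∈ W, Kp I B) → W.map fst = F.map fst ∧ ∀ B ∈ W, fst B + lst B ≤ I := by
  induction h using ReflTransGen.head_induction_on with
  | refl => exact fun _ => ⟨rfl, hF⟩
  | head h1 _ ih =>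
    intro hW
    obtain ⟨e, hle⟩ := ih (h1.all hk _ (kp_step hk) hW)
    rcases h1 with ⟨P0, Q, B, B', hB, rfl, rfl⟩ | ⟨P, Q, Y, G, rfl, rfl⟩
    · have h1 := hB.fst_le hk
      have h2 := hB.lst_le hk
      have h3 : Kp I B := hW B (by simp)
      have h4 := hle B' (by simp)
      unfold Kp at h3
      have h5 : fst B = fst B' := by omega
      refine ⟨by rw [← e]; simp [h5], fun X hX => ?_⟩
      simp only [List.mem_append, List.mem_cons] at hX
      rcases hX with hX | rfl | hX
      · exact hle X (by simp [hX])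
      · omega
      · exact hle X (by simp [hX])
    · exfalso
      obtain ⟨j, hj⟩ : ∃ j, k + m = j + 1 + 1 := ⟨k + m - 2, by omega⟩
      rw [hj, pw_succ, pw_succ] at e
      have := hsq (P.map fst) ((Y ++ [G]).map fst) ((pw (Y ++ [G]) j ++ Y ++ Q).map fst) (by
        rw [← e]; simp)
      simp at this

lemma F2.get {k m : ℕ} {RL RL' : List (List (List ℕ))} (h : F2 k m RL RL') :
    ∀ (i : ℕ) (X' : List (List ℕ)), RL'[i]? = some X' →
      ∃ X, RL[i]? = some X ∧ (X' = X ∨ RStep k m X X') := by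
  unfold F2 at h
  induction h with
  | nil => intro i X' h; simp at h
  | cons h1 _ ih =>
    intro i X' h
    rcases i with _ | i
    · simp only [List.getElem?_cons_zero, Option.some.injEq] at h ⊢
      subst h
      exact ⟨_, rfl, h1⟩
    · simp only [List.getElem?_cons_succ] at h ⊢
      exact ih i X' h

def Inv (k m I : ℕ) (RL : List (List (List ℕ))) : Prop :=
  (RL.length = k + 2 ∧ (∀ X, RL[0]? = some X → ∀ B ∈ X, K1 (k + 1) I B) ∧
    (∀ X, RL[k + 1]? = some X → ∀ B ∈ X, K2 (k + 1) B)) ∨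
  (RL.length = k + 2 + m ∧ ∃ W : List (List ℕ), (∀ B ∈ W, Kp I B) ∧
    (∀ X, RL[1]? = some X → ReflTransGen (RStep (k + 1) m) W X) ∧
    (∀ X, RL[k + 1 + m]? = some X → W.length ≤ X.length)) ∨
  k + 2 + m < RL.length

lemma inv_step (k m I : ℕ) (hm : 1 ≤ m) (C C' : List (List ℕ)) (hC : Good C)
    (h : CStep (k + 1) m C C') (hI : Inv k m I (reg C)) : Inv k m I (reg C') := by
  have hk : 1 ≤ k + 1 := by omega
  rcases cstep_reg k m C C' hC h with h | ⟨pre, post, s, W, t, e1, e2⟩ | ⟨h1, h2⟩
  · have hl : (reg C).length = (reg C').length := List.Forall₂.length_eq h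
    rcases hI with ⟨h1, h2, h3⟩ | ⟨h1, W, h2, h3, h4⟩ | h1
    · refine Or.inl ⟨by omega, fun X' hX' => ?_, fun X' hX' => ?_⟩
      · obtain ⟨X, hX, rfl | hs⟩ := h.get 0 X' hX'
        · exact h2 _ hX
        · exact hs.all hk _ (fun B B' hB => hB.k1 hk) (h2 X hX)
      · obtain ⟨X, hX, rfl | hs⟩ := h.get _ X' hX'
        · exact h3 _ hX
        · exact hs.all hk _ (fun B B' hB => hB.k2) (h3 X hX)
    · refine Or.inr (Or.inl ⟨by omega, W, h2, fun X' hX' => ?_, fun X' hX' => ?_⟩)
      · obtain ⟨X, hX, rfl | hs⟩ := h.get _ X' hX'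
        · exact h3 _ hX
        · exact (h3 X hX).tail hs
      · obtain ⟨X, hX, rfl | hs⟩ := h.get _ X' hX'
        · exact h4 _ hX
        · exact (h4 X hX).trans hs.len
    · exact Or.inr (Or.inr (by omega))
  · have l1 := congrArg List.length e1
    have l2 := congrArg List.length e2
    simp only [List.length_append, length_pw, List.length_singleton, mul_one] at l1 l2
    rcases hI with ⟨h1, h2, h3⟩ | ⟨h1, -⟩ | h1
    · have hpre : pre = [] := List.length_eq_zero_iff.1 (by omega)
      have hpost : post = [] := List.length_eq_zero_iff.1 (by omega)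
      subst hpre hpost
      rw [List.nil_append, List.append_nil] at e1 e2
      have a1 := h2 (s ++ W) (by rw [e1]; simp)
      have a2 := h3 (W ++ t) (by
        rw [e1, List.getElem?_append_right (by simp)]; simp)
      refine Or.inr (Or.inl ⟨by simp at l2; omega, W, fun B hB => ?_, fun X hX => ?_, fun X hX => ?_⟩)
      · have b1 := a1 B (by simp [hB])
        have b2 := a2 B (by simp [hB])
        rcases b1.2 with b3 | b3
        · exact b3
        · have := b3.1
          unfold K2 at b2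
          omega
      · obtain ⟨j, hj⟩ : ∃ j, k + m = j + 1 := ⟨k + m - 1, by omega⟩
        rw [e2, hj, pw_succ] at hX
        simp at hX
        subst hX
        exact ReflTransGen.refl
      · rw [e2, List.getElem?_append_right (by simp)] at hX
        have : k + 1 + m - ([s ++ W] ++ pw [W] (k + m)).length = 0 := by simp; omega
        rw [this] at hX
        simp at hX
        subst hX
        simp
    · exact Or.inr (Or.inr (by omega))
    · exact Or.inr (Or.inr (by omega))
  · exact Or.inr (Or.inr (by omega))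

def CD (y : List Bool) : List (List ℕ) := comps (dec y)

lemma inv_der (k m I : ℕ) (hm : 1 ≤ m) (w y : List Bool) (h : Der (k + 2) m w y)
    (hG : Good (CD w)) (hI : Inv k m I (reg (CD w))) : Good (CD y) ∧ Inv k m I (reg (CD y)) := by
  induction h with
  | refl => exact ⟨hG, hI⟩
  | tail _ h2 ih =>
    have h3 := nstep_cstep (k + 1) m (by omega) _ _ ih.1.1 (step_nstep (k + 1) m (by omega) _ _ h2)
    exact ⟨h3.good (by omega) ih.1, inv_step k m I hm _ _ ih.1 h3 ih.2⟩

/-! the words -/

def aa (i : ℕ) : List Bool := List.replicate i true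
def blk (I i J j : ℕ) : List Bool :=
  aa i ++ [false, false] ++ pw (aa I ++ [false, false]) J ++ aa j
def nblk (I i J j : ℕ) : List ℕ := [i, 0] ++ pw [I, 0] J ++ [j]
def dd : List Bool := [false, true, false]

lemma dec_aa2 (i : ℕ) (r : List Bool) : dec (aa i ++ [false, false] ++ r) = [i, 0] ++ dec r := by
  have e : aa i ++ [false, false] ++ r = aa i ++ false :: ([] ++ false :: r) := by simp
  rw [e, dec_append, dec_append, aa, dec_rep]; rfl

lemma dec_blk (I i J j : ℕ) : dec (blk I i J j) = nblk I i J j := by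
  unfold blk nblk
  rw [List.append_assoc, dec_aa2, List.append_assoc]
  congr 1
  induction J with
  | zero => simp [aa, dec_rep]
  | succ J ih => rw [pw_succ, pw_succ, List.append_assoc, dec_aa2, ih]; simp

lemma fst_nblk (I i J j : ℕ) : fst (nblk I i J j) = i := rfl
lemma lst_nblk (I i J j : ℕ) : lst (nblk I i J j) = j := lst_snoc _ _

lemma mem_nblk {I i J j x : ℕ} (h : x ∈ nblk I i J j) : x = i ∨ x = 0 ∨ x = I ∨ x = j := by
  unfold nblk at h
  simp only [List.mem_append, List.mem_cons, List.not_mem_nil, or_false] at h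
  rcases h with ((h | h) | h) | h
  · tauto
  · tauto
  · have := mem_pw h
    simp only [List.mem_cons, List.not_mem_nil, or_false] at this
    tauto
  · tauto

lemma wf_nblk {I i J j : ℕ} (hI : 3 ≤ I) (hi : 3 ≤ i) (hj : 3 ≤ j) : WF (nblk I i J j) := by
  refine ⟨hi, by rw [lst_nblk]; exact hj, fun x hx => ?_, ?_⟩
  · rcases mem_nblk hx with rfl | rfl | rfl | rfl <;> omega
  · unfold nblk Ch
    induction J generalizing i with
    | zero => simp
    | succ J ih =>
      have := ih hI
      rw [pw_succ]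
      simpa using this

lemma bigs_nblk {I i J j : ℕ} (hI : 3 ≤ I) (hi : 3 ≤ i) (hj : 3 ≤ j) :
    bigs (nblk I i J j) = i :: (List.replicate J I ++ [j]) := by
  unfold nblk
  have h1 : ∀ x, 3 ≤ x → bigs [x, 0] = [x] := fun x hx => by
    rw [bigs_cons x (by omega)]; simp [bigs]
  rw [bigs_append, bigs_append, bigs_pw, h1 i hi, h1 I hI, pw_single, bigs_cons j (by omega)]
  simp [bigs]

lemma cd_blk {I i J j : ℕ} (hI : 3 ≤ I) (hi : 3 ≤ i) (hj : 3 ≤ j) :
    CD (blk I i J j) = [dec (blk I i J j)] := by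
  unfold CD comps
  refine parts_free mu1 _ (fun x hx => ?_) (dec_ne_nil _)
  rw [dec_blk] at hx
  rcases mem_nblk hx with rfl | rfl | rfl | rfl <;> simp [mu1] <;> omega

lemma cd_dd (y z : List Bool) : CD (y ++ dd ++ z) = CD y ++ CD z := by
  have e : y ++ dd ++ z = y ++ false :: ([true] ++ false :: z) := by simp [dd]
  unfold CD comps
  rw [e, dec_append, dec_append]
  exact parts_append mu1 _ 1 _ rfl

lemma cd_nil : CD [] = [[0]] := rfl

def Reg (Bs : List (List Bool)) : List Bool := (Bs.map (fun B => dd ++ B)).flatten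

lemma cd_reg (Bs : List (List Bool)) (hB : ∀ B ∈ Bs, CD B = [dec B]) (y z : List Bool) :
    CD (y ++ (Reg Bs ++ dd) ++ z) = CD y ++ Bs.map dec ++ CD z := by
  induction Bs generalizing y with
  | nil => simp [Reg, ← cd_dd]
  | cons B Bs ih =>
    have e : y ++ (Reg (B :: Bs) ++ dd) ++ z = y ++ dd ++ (B ++ (Reg Bs ++ dd) ++ z) := by
      simp [Reg]
    rw [e, cd_dd, ih (fun X hX => hB X (by simp [hX])), hB B (by simp)]
    simp

lemma cd_pw (Bs : List (List Bool)) (hB : ∀ B ∈ Bs, CD B = [dec B]) (j : ℕ) (z : List Bool) :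
    CD (pw (Reg Bs ++ dd) j ++ z) = pw ([[0]] ++ Bs.map dec) j ++ CD z := by
  induction j with
  | zero => simp
  | succ j ih =>
    have := cd_reg Bs hB [] (pw (Reg Bs ++ dd) j ++ z)
    rw [List.nil_append, ih, cd_nil] at this
    rw [pw_succ, pw_succ, List.append_assoc, this]; simp

lemma reg_form (A0 Cl E : List (List ℕ)) (h1 : ∀ B ∈ A0, mu2 B = false) (h2 : ∀ B ∈ Cl, mu2 B = false)
    (h3 : ∀ B ∈ E, mu2 B = false) (n1 : A0 ≠ []) (n2 : Cl ≠ []) (n3 : E ≠ []) (j : ℕ) :
    reg (A0 ++ pw ([[0]] ++ Cl) j ++ [0] :: E) = [A0] ++ List.replicate j Cl ++ [E] := by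
  unfold reg
  have e : A0 ++ pw ([[0]] ++ Cl) j ++ [0] :: E = A0 ++ [0] :: (pw (Cl ++ [[0]]) j ++ E) := by
    have := pw_conj [[0]] Cl j
    have e2 : A0 ++ pw ([[0]] ++ Cl) j ++ [0] :: E = A0 ++ (pw ([[0]] ++ Cl) j ++ [[0]]) ++ E := by simp
    rw [e2, this]; simp
  rw [e, parts_append mu2 _ _ _ rfl, parts_pw_marker mu2 _ _ rfl, parts_free mu2 _ h1 n1,
    parts_free mu2 _ h2 n2, parts_free mu2 _ h3 n3, pw_single, List.append_assoc]

lemma pw_blk (p q J : ℕ) : pw (aa p ++ [false, false] ++ aa q) (J + 1) = blk (q + p) p J q := by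
  unfold blk
  have e : aa (q + p) ++ [false, false] = aa q ++ (aa p ++ [false, false]) := by
    unfold aa; rw [List.replicate_add, List.append_assoc]
  rw [e, pw_succ', ← List.append_assoc, pw_conj]

section words
variable (k m : ℕ)

def II : ℕ := 2 * (k + 3) + 2 * m
def U1 : List Bool := blk (II k m) (k + 3) (k + 1) (k + 3)
def U2 : List Bool := blk (II k m) (k + 3) (k + 1 + m) (k + 3)
def Ty (c : ℕ) : List Bool := blk (II k m) (k + 3 + m * c) (k + 1 + m) (k + 3 + m * (2 - c))
def TT (N : ℕ) : List (List Bool) := (List.range N).map fun i => Ty k m (sq i)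
def ww : List Bool := U1 k m ++ (Reg (List.replicate (k + 2) (U1 k m)) ++ dd) ++
  (pw (Reg (List.replicate (k + 2) (U2 k m)) ++ dd) (k + 1) ++ U2 k m)

lemma der_aa (r : ℕ) : Der (k + 2) m (aa (k + 3)) (aa (k + 3 + m * r)) := by
  have := der_pw (n := k + 2) (m := m) [true] (k + 3) r (by omega)
  rwa [pw_single, pw_single] at this

lemma der_ends (J c c' : ℕ) : Der (k + 2) m (blk (II k m) (k + 3) J (k + 3))
    (blk (II k m) (k + 3 + m * c) J (k + 3 + m * c')) :=
  (((der_aa k m c).app (Der.rfl' _)).app (Der.rfl' _)).app (der_aa k m c')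

lemma der_U2 (c : ℕ) : Der (k + 2) m (U2 k m) (Ty k m c) := der_ends k m _ _ _

lemma der_U1 (c : ℕ) (hc : c ≤ 2) : Der (k + 2) m (U1 k m) (Ty k m c) := by
  refine (der_ends k m _ c (2 - c)).trans ?_
  have e : II k m = (k + 3 + m * (2 - c)) + (k + 3 + m * c) := by
    unfold II
    interval_cases c <;> simp <;> ring
  unfold Ty
  rw [e, ← pw_blk, ← pw_blk]
  have := der_pw (n := k + 2) (m := m)
    (aa (k + 3 + m * c) ++ [false, false] ++ aa (k + 3 + m * (2 - c))) (k + 1 + 1) 1 le_rfl
  rwa [show k + 1 + 1 + m * 1 = k + 1 + m + 1 by ring] at this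

lemma reg_rep (U : List Bool) (N : ℕ) : Reg (List.replicate N U) = pw (dd ++ U) N := by
  simp [Reg, pw]

lemma der_reg (U : List Bool) (hU : ∀ c ≤ 2, Der (k + 2) m U (Ty k m c)) (r : ℕ) :
    Der (k + 2) m (Reg (List.replicate (k + 2) U) ++ dd) (Reg (TT k m (k + 2 + m * r)) ++ dd) := by
  refine Der.app ?_ (Der.rfl' _)
  rw [reg_rep]
  refine (der_pw _ _ r le_rfl).trans ?_
  generalize k + 2 + m * r = N
  induction N with
  | zero => exact Der.rfl' _
  | succ N ih =>
    have e : Reg (TT k m (N + 1)) = Reg (TT k m N) ++ (dd ++ Ty k m (sq N)) := by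
      simp [Reg, TT, List.range_succ]
    rw [pw_succ', e]
    exact Der.app ih ((Der.rfl' _).app (hU _ (sq_le N)))

def uu (r : ℕ) : List Bool := U1 k m ++ pw (Reg (TT k m (k + 2 + m * r)) ++ dd) (k + 1 + m)
def vv (r : ℕ) : List Bool := (Reg (TT k m (k + 2 + m * r)) ++ dd) ++ U2 k m

lemma der_test (r : ℕ) : Der (k + 2) m (ww k m) (uu k m r ++ vv k m r) := by
  have h1 := der_reg k m (U1 k m) (der_U1 k m) r
  have h2 := der_reg k m (U2 k m) (fun c _ => der_U2 k m c) r
  refine (((Der.rfl' _).app h1).app ((h2.pw (k + 1)).app (Der.rfl' _))).trans ?_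
  unfold uu vv
  generalize Reg (TT k m (k + 2 + m * r)) ++ dd = X
  have h3 := (der_pw (n := k + 2) (m := m) X (k + 1 + 1) 1 le_rfl).ctx (U1 k m) (U2 k m)
  rw [show k + 1 + 1 + m * 1 = k + 1 + m + 1 by ring, pw_succ, pw_succ' X (k + 1 + m)] at h3
  simpa using h3

lemma hII : 3 ≤ II k m := by unfold II; omega

lemma mu2_nblk {I i J j : ℕ} (hi : 3 ≤ i) : mu2 (nblk I i J j) = false := by
  simp only [mu2, fst_nblk, beq_eq_false_iff_ne]; omega

lemma cd_ww : CD (ww k m) = List.replicate (k + 3) (nblk (II k m) (k + 3) (k + 1) (k + 3)) ++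
    pw ([[0]] ++ List.replicate (k + 2) (nblk (II k m) (k + 3) (k + 1 + m) (k + 3))) k ++
    [0] :: List.replicate (k + 3) (nblk (II k m) (k + 3) (k + 1 + m) (k + 3)) := by
  have c1 : CD (U1 k m) = [dec (U1 k m)] := cd_blk (hII k m) (by omega) (by omega)
  have c2 : CD (U2 k m) = [dec (U2 k m)] := cd_blk (hII k m) (by omega) (by omega)
  unfold ww
  rw [cd_reg _ (fun B hB => by rw [List.eq_of_mem_replicate hB]; exact c1),
    cd_pw _ (fun B hB => by rw [List.eq_of_mem_replicate hB]; exact c2), c1, c2, pw_succ']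
  simp only [List.map_replicate, U1, U2, dec_blk]
  rw [List.replicate_succ (n := k + 2), List.replicate_succ' (n := k + 2)]
  simp

lemma good_ww : Good (CD (ww k m)) := by
  rw [cd_ww]
  refine ⟨fun B hB => ?_, ?_, ?_⟩
  · have hz : Val [0] := Or.inl (by intro x hx; simpa using hx)
    simp only [List.mem_append, List.mem_cons] at hB
    rcases hB with (hB | hB) | rfl | hB
    · rw [List.eq_of_mem_replicate hB]; exact Or.inr (wf_nblk (hII k m) (by omega) (by omega))
    · rcases List.mem_append.1 (mem_pw hB) with h | h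
      · rw [List.mem_singleton.1 h]; exact hz
      · rw [List.eq_of_mem_replicate h]; exact Or.inr (wf_nblk (hII k m) (by omega) (by omega))
    · exact hz
    · rw [List.eq_of_mem_replicate hB]; exact Or.inr (wf_nblk (hII k m) (by omega) (by omega))
  · rw [List.replicate_succ (n := k + 2)]
    exact ⟨_, _, rfl, mu2_nblk (by omega)⟩
  · rw [List.replicate_succ' (n := k + 2) (a := nblk (II k m) (k + 3) (k + 1 + m) (k + 3)),
      ← List.cons_append, ← List.append_assoc]
    exact ⟨_, _, rfl, mu2_nblk (by omega)⟩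

lemma inv_ww (hm : 1 ≤ m) : Inv k m (II k m) (reg (CD (ww k m))) := by
  rw [cd_ww, reg_form _ _ _
    (fun B hB => by rw [List.eq_of_mem_replicate hB]; exact mu2_nblk (by omega))
    (fun B hB => by rw [List.eq_of_mem_replicate hB]; exact mu2_nblk (by omega))
    (fun B hB => by rw [List.eq_of_mem_replicate hB]; exact mu2_nblk (by omega))
    (by simp) (by simp) (by simp)]
  refine Or.inl ⟨by simp, fun X hX B hB => ?_, fun X hX B hB => ?_⟩
  · simp only [List.cons_append, List.getElem?_cons_zero,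
      Option.some.injEq] at hX
    subst hX
    rw [List.eq_of_mem_replicate hB]
    refine ⟨wf_nblk (hII k m) (by omega) (by omega), Or.inr ?_⟩
    unfold K0
    rw [bigs_nblk (hII k m) (by omega) (by omega)]
    refine ⟨by simp, fun u x v e hu hv => ?_⟩
    obtain ⟨y, u', rfl⟩ := List.exists_cons_of_ne_nil hu
    rcases List.eq_nil_or_concat v with rfl | ⟨v', z, rfl⟩
    · exact absurd rfl hv
    rw [List.concat_eq_append] at e
    have e2 := (List.cons.inj e).2
    have e3 : List.replicate (k + 1) (II k m) = u' ++ x :: v' :=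
      List.append_inj_left' (e2.trans (by simp : _ = (u' ++ x :: v') ++ [z])) rfl
    exact (List.eq_of_mem_replicate (e3 ▸ (by simp : x ∈ u' ++ x :: v'))).ge
  · rw [List.getElem?_append_right (by simp)] at hX
    simp at hX
    subst hX
    rw [List.eq_of_mem_replicate hB]
    unfold K2
    rw [bigs_nblk (hII k m) (by omega) (by omega)]
    simp; omega

lemma not_der_test (hm : 1 ≤ m) (j l : ℕ) (hl : j + 2 ≤ l) :
    ¬ Der (k + 2) m (ww k m) (uu k m l ++ vv k m j) := by
  intro h
  have hI := (inv_der k m (II k m) hm _ _ h (good_ww k m) (inv_ww k m hm)).2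
  have cT : ∀ N, ∀ B ∈ TT k m N, CD B = [dec B] := by
    intro N B hB
    obtain ⟨i, _, rfl⟩ := List.mem_map.1 hB
    exact cd_blk (hII k m) (by omega) (by omega)
  have mT : ∀ N, ∀ B ∈ (TT k m N).map dec, ∃ c ≤ 2,
      B = nblk (II k m) (k + 3 + m * c) (k + 1 + m) (k + 3 + m * (2 - c)) := by
    intro N B hB
    obtain ⟨B0, hB0, rfl⟩ := List.mem_map.1 hB
    obtain ⟨i, _, rfl⟩ := List.mem_map.1 hB0
    exact ⟨sq i, sq_le i, dec_blk _ _ _ _⟩
  have mT2 : ∀ N, ∀ B ∈ (TT k m N).map dec, mu2 B = false := by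
    intro N B hB
    obtain ⟨c, -, rfl⟩ := mT N B hB
    exact mu2_nblk (by omega)
  have lT : ∀ N, ((TT k m N).map dec).length = N := by intro N; simp [TT]
  have c1 : CD (U1 k m) = [dec (U1 k m)] := cd_blk (hII k m) (by omega) (by omega)
  have c2 : CD (U2 k m) = [dec (U2 k m)] := cd_blk (hII k m) (by omega) (by omega)
  have e : CD (uu k m l ++ vv k m j) =
      (dec (U1 k m) :: (TT k m (k + 2 + m * l)).map dec) ++
        pw ([[0]] ++ (TT k m (k + 2 + m * l)).map dec) (k + m) ++
        [0] :: ((TT k m (k + 2 + m * j)).map dec ++ [dec (U2 k m)]) := by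
    unfold uu vv
    have h1 := cd_reg _ (cT (k + 2 + m * j)) [] (U2 k m)
    rw [List.nil_append, cd_nil, c2] at h1
    have e0 : ∀ X Z : List Bool, U1 k m ++ pw X (k + 1 + m) ++ Z = U1 k m ++ X ++ (pw X (k + m) ++ Z) := by
      intro X Z
      rw [show k + 1 + m = k + m + 1 by ring, pw_succ]; simp
    rw [e0, cd_reg _ (cT _), cd_pw _ (cT _), h1, c1]
    simp
  rw [e, reg_form _ _ _ (free_cons (by rw [U1, dec_blk]; exact mu2_nblk (by omega)) (mT2 _)) (mT2 _)
    (free_app (mT2 _) (by
      intro B hB; rw [List.mem_singleton.1 hB, U2, dec_blk]; exact mu2_nblk (by omega)))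
    (by simp) (by
      intro h0; have := lT (k + 2 + m * l); rw [h0] at this; simp at this; omega) (by simp)] at hI
  rcases hI with ⟨h1, -⟩ | ⟨-, W, h2, h3, h4⟩ | h1
  · simp at h1; omega
  · have a1 := h3 ((TT k m (k + 2 + m * l)).map dec) (by
      obtain ⟨i, hi⟩ : ∃ i, k + m = i + 1 := ⟨k + m - 1, by omega⟩
      rw [hi, List.replicate_succ]; simp)
    have a2 := h4 ((TT k m (k + 2 + m * j)).map dec ++ [dec (U2 k m)]) (by
      rw [List.getElem?_append_right (by simp)]
      have : k + 1 + m - ([dec (U1 k m) :: (TT k m (k + 2 + m * l)).map dec] ++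
        List.replicate (k + m) ((TT k m (k + 2 + m * l)).map dec)).length = 0 := by simp; omega
      rw [this]; rfl)
    have a3 := (desc_types (I := II k m) (by omega) hm a1 (fun B hB => by
      obtain ⟨c, hc, rfl⟩ := mT _ B hB
      rw [fst_nblk, lst_nblk]; unfold II
      interval_cases c <;> simp <;> omega) (fun s Z t e2 => by
      refine map_range_square (fun i => k + 3 + m * sq i) (fun p hp i hh => ?_) (k + 2 + m * l) s Z t ?_
      · refine sq_square_free p hp i fun j hj => ?_
        have := hh j hj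
        exact Nat.eq_of_mul_eq_mul_left hm (Nat.add_left_cancel this)
      · rw [← e2]
        simp only [TT, List.map_map]
        refine List.map_congr_left fun i _ => ?_
        simp [Ty, dec_blk, fst_nblk]) h2).1
    have a4 := congrArg List.length a3
    rw [List.length_map, List.length_map, lT] at a4
    rw [List.length_append, lT, a4] at a2
    have : m * (j + 2) ≤ m * l := Nat.mul_le_mul_left m hl
    simp at a2
    nlinarith
  · simp at h1; omega

end words

lemma not_regular_of' {A : Type} (L : Language A) (u v : ℕ → List A)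
    (h1 : ∀ k, u k ++ v k ∈ L) (h2 : ∀ j, ∃ N, ∀ k, N ≤ k → u k ++ v j ∉ L) : ¬ L.IsRegular := by
  intro h
  have hf := h.finite_range_leftQuotient
  have : Finite (Set.range L.leftQuotient) := hf
  obtain ⟨Q, hQ⟩ := Finite.exists_infinite_fiber
    (fun k : ℕ => (⟨L.leftQuotient (u k), ⟨u k, rfl⟩⟩ : Set.range L.leftQuotient))
  have hinf : ((fun k : ℕ => (⟨L.leftQuotient (u k), ⟨u k, rfl⟩⟩ : Set.range L.leftQuotient)) ⁻¹' {Q}).Infinite :=
    Set.infinite_coe_iff.1 hQ
  obtain ⟨k0, hk0⟩ := hinf.nonempty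
  obtain ⟨N, hN⟩ := h2 k0
  obtain ⟨k, hk, hNk⟩ := hinf.exists_gt N
  apply hN k hNk.le
  have e : L.leftQuotient (u k) = L.leftQuotient (u k0) := by
    have a := congrArg Subtype.val (Set.mem_singleton_iff.1 hk)
    have b := congrArg Subtype.val (Set.mem_singleton_iff.1 hk0)
    exact a.trans b.symm
  have : v k0 ∈ L.leftQuotient (u k0) := h1 k0
  rw [← e] at this
  exact this

theorem big_not_regular {A : Type} (a b : A) (hab : a ≠ b) (k m : ℕ) (hm : 1 ≤ m) :
    ∃ w : List A, ¬ (Lang (k + 2) m w).IsRegular := by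
  classical
  let f : Bool → A := fun x => if x then a else b
  let g : A → Bool := fun x => decide (x = a)
  have hgf : ∀ y : List Bool, (y.map f).map g = y := by
    intro y
    rw [List.map_map]
    conv_rhs => rw [← List.map_id y]
    refine List.map_congr_left fun x _ => ?_
    cases x <;> simp [f, g, hab.symm]
  refine ⟨(ww k m).map f, not_regular_of' _ (fun r => (uu k m r).map f) (fun r => (vv k m r).map f)
    (fun r => ?_) (fun j => ⟨j + 2, fun l hl h => ?_⟩)⟩
  · rw [← List.map_append]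
    exact (der_test k m r).map f
  · rw [← List.map_append] at h
    have h' : Der (k + 2) m ((ww k m).map f) ((uu k m l ++ vv k m j).map f) := h
    have h2 := h'.map g
    rw [hgf, hgf] at h2
    exact not_der_test k m hm j l hl h2

theorem alphabets {A : Type} (n m : ℕ) (hn : 1 ≤ n) (hm : 1 ≤ m) (h : (n, m) ≠ (1, 1)) :
    (∀ w : List A, (Lang n m w).IsRegular) ↔ Subsingleton A := by
  constructor
  · intro hr
    refine ⟨fun a b => ?_⟩
    by_contra hab
    by_cases h1 : n = 1
    · subst h1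
      have hm2 : 2 ≤ m := by
        by_contra h2
        exact h (by rw [show m = 1 by omega])
      exact n1_not_regular m hm2 [a, b] a b hab (by simp) (by simp) (hr _)
    · obtain ⟨k, rfl⟩ : ∃ k, n = k + 2 := ⟨n - 2, by omega⟩
      obtain ⟨w, hw⟩ := big_not_regular a b hab k m hm
      exact hw (hr w)
  · intro hs w
    exact const_regular n m hn hm w fun x _ y _ => Subsingleton.elim x y

theorem n1_class {A : Type} (m : ℕ) (hm : 2 ≤ m) (w : List A) :
    (Lang 1 m w).IsRegular ↔ ∀ x ∈ w, ∀ y ∈ w, x = y := by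
  constructor
  · intro hr x hx y hy
    by_contra hxy
    exact n1_not_regular m hm w x y hxy hx hy hr
  · exact const_regular 1 m le_rfl (by omega) w

end Pool.Agent.H739Z.Rw
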